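import Pool.Agent.V7H55.LT.Tor

/-! The bound for the torsion when a dense set of primes are norms. -/

set_option autoImplicit false

namespace Pool.Agent.V7H55.LT

open NumberField Finset Pool.Agent.TH847.LS Pool.Agent.TH847.LG Filter Topology
open scoped Classical nonZeroDivisors

theorem two_lt_D {n : ℕ} (hn2 : 2 ≤ n) (K : Type) [Field K] [NumberField K]
    (hn : Module.finrank ℚ K = n) : 2 < (discr K).natAbs := by
  have := abs_discr_gt_two (K := K) (by rw [hn]; omega)
  rw [Int.abs_eq_natAbs] at this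
  exact_mod_cast this

theorem abs_discr_eq (K : Type) [Field K] [NumberField K] :
    |(discr K : ℝ)| = ((discr K).natAbs : ℝ) := by
  rw [Nat.cast_natAbs]
  push_cast
  rfl

theorem card_primeFactors_le (N : ℕ) (hN : N ≠ 0) :
    (N.primeFactors.card : ℝ) ≤ 2 * Real.log N := by
  have h5 : 2 ^ N.primeFactors.card ≤ N := by
    calc 2 ^ N.primeFactors.card ≤ ∏ p ∈ N.primeFactors, p := by
          refine Finset.pow_card_le_prod _ _ _ fun p hp => ?_
          exact (Nat.prime_of_mem_primeFactors hp).two_le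
      _ ≤ N := Nat.le_of_dvd (by omega) (Nat.prod_primeFactors_dvd N)
  have h6 : (2 : ℝ) ^ N.primeFactors.card ≤ N := by exact_mod_cast h5
  have h7 := Real.log_le_log (by positivity) h6
  rw [Real.log_pow] at h7
  have h8 := Real.log_two_gt_d9
  have h9 : (0 : ℝ) ≤ N.primeFactors.card := by positivity
  nlinarith

/-- the trivial bound -/
theorem tor_trivial (n : ℕ) (hn2 : 2 ≤ n) (ε : ℝ) (hε : 0 < ε) : ∃ C : ℝ, 0 < C ∧ ∀ l : ℕ,
    ∀ (K : Type) [Field K] [NumberField K], Module.finrank ℚ K = n →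
    (Nat.card {c : ClassGroup (𝓞 K) // c ^ l = 1} : ℝ) ≤
      C * ((discr K).natAbs : ℝ) ^ (1 / 2 + ε) := by
  obtain ⟨C, hC0, hC⟩ := Pool.Agent.Y159.PT.W_bound n hn2 ε hε
  refine ⟨C, hC0, ?_⟩
  intro l K _ _ hn
  obtain ⟨N, hXN, hW⟩ := hC K hn
  exact (tor_le_W hn l N hXN).trans hW

/-- the size condition -/
theorem size_cond {n l : ℕ} (hn2 : 2 ≤ n) (hl : 1 ≤ l) {D y : ℝ} (hD : 2 < D) (hy0 : 0 ≤ y)
    (hy : y ≤ D ^ (1 / (2 * l * (n - 1)) : ℝ) / 300 ^ n) :
    (2 ^ n * ((150 : ℝ) ^ l) ^ n * (y ^ 2) ^ l) ^ (n - 1) < D := by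
  obtain ⟨m, rfl⟩ : ∃ m, n = m + 1 := ⟨n - 1, by omega⟩
  have hm : 1 ≤ m := by omega
  have hmr : (1 : ℝ) ≤ m := by exact_mod_cast hm
  have hlr : (1 : ℝ) ≤ l := by exact_mod_cast hl
  simp only [Nat.add_sub_cancel]
  have e0 : ((m + 1 : ℕ) : ℝ) - 1 = m := by push_cast; ring
  rw [e0] at hy
  set θ : ℝ := 1 / (2 * l * m) with hθ
  have hθ0 : 0 < θ := by positivity
  have hD0 : 0 < D := by linarith
  set c : ℝ := 300 ^ (m + 1) with hc
  have hc1 : 1 < c := by
    rw [hc]; exact one_lt_pow₀ (by norm_num) (by omega)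
  have h1 : 2 ^ (m + 1) * ((150 : ℝ) ^ l) ^ (m + 1) ≤ c ^ l := by
    calc 2 ^ (m + 1) * ((150 : ℝ) ^ l) ^ (m + 1) ≤ ((2 : ℝ) ^ l) ^ (m + 1) * ((150 : ℝ) ^ l) ^ (m + 1) := by
          gcongr
          calc (2 : ℝ) = 2 ^ 1 := by norm_num
            _ ≤ 2 ^ l := pow_le_pow_right₀ (by norm_num) hl
      _ = c ^ l := by
          rw [hc, ← mul_pow, ← mul_pow, ← pow_mul, ← pow_mul, mul_comm l]
          norm_num
  have h2 : y ^ (2 * l * m) ≤ D / c ^ (2 * l * m) := by
    calc y ^ (2 * l * m) ≤ (D ^ θ / c) ^ (2 * l * m) := pow_le_pow_left₀ hy0 hy _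
      _ = D / c ^ (2 * l * m) := by
          rw [div_pow, ← Real.rpow_natCast (D ^ θ), ← Real.rpow_mul hD0.le]
          congr 1
          have : θ * ((2 * l * m : ℕ) : ℝ) = 1 := by
            rw [hθ]; push_cast; field_simp
          rw [this, Real.rpow_one]
  calc (2 ^ (m + 1) * ((150 : ℝ) ^ l) ^ (m + 1) * (y ^ 2) ^ l) ^ m
      ≤ (c ^ l * (y ^ 2) ^ l) ^ m := by gcongr
    _ = c ^ (l * m) * y ^ (2 * l * m) := by
        rw [mul_pow, ← pow_mul c l m, ← pow_mul y 2 l, ← pow_mul y (2 * l) m]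
    _ ≤ c ^ (l * m) * (D / c ^ (2 * l * m)) := by gcongr
    _ = D / c ^ (l * m) := by
        have : c ^ (2 * l * m) = c ^ (l * m) * c ^ (l * m) := by
          rw [← pow_add]; congr 1; ring
        rw [this]
        field_simp
    _ < D := by
        have : 1 < c ^ (l * m) := one_lt_pow₀ hc1 (by positivity)
        exact div_lt_self hD0 this

/-- **The bound for the torsion when a dense set of primes are norms.** -/
theorem engine (n : ℕ) (hn2 : 2 ≤ n) (ε : ℝ) (hε : 0 < ε) (T : ℕ → Prop)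
    (hT : ∀ η : ℝ, 0 < η → ∀ᶠ X : ℕ in atTop,
      (X : ℝ) ^ (1 - η) ≤ ((range (X + 1)).filter fun p => p.Prime ∧ T p).card) :
    ∃ C : ℝ, 0 < C ∧ ∀ l : ℕ, 1 ≤ l →
    ∀ (K : Type) [Field K] [NumberField K], Module.finrank ℚ K = n →
    (∀ p : ℕ, p.Prime → T p → ¬ p ∣ (discr K).natAbs → ∃ P : Ideal (𝓞 K), Ideal.absNorm P = p) →
    (Nat.card {c : ClassGroup (𝓞 K) // c ^ l = 1} : ℝ) ≤
      C * |(discr K : ℝ)| ^ (1 / 2 - 1 / (2 * l * (n - 1)) + ε : ℝ) := by
  set ε0 : ℝ := min ε 1 with hε0d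
  have hε0 : 0 < ε0 := lt_min hε one_pos
  have hε01 : ε0 ≤ 1 := min_le_right _ _
  have hε0ε : ε0 ≤ ε := min_le_left _ _
  have hnr : (2 : ℝ) ≤ n := by exact_mod_cast hn2
  obtain ⟨C0, hC00, hC0⟩ := tor_trivial n hn2 (ε0 / 4) (by positivity)
  obtain ⟨C1, hC10, hC1⟩ := tor_sets n hn2 (ε0 / 4) (by positivity)
  set η : ℝ := ε0 / 4 with hη
  have hη0 : 0 < η := by positivity
  have hη1 : η ≤ 1 / 4 := by rw [hη]; linarith
  set c : ℝ := 300 ^ n with hc
  have hc1 : 1 ≤ c := one_le_pow₀ (by norm_num)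
  have hc0 : 0 < c := by linarith
  -- large `X`
  have hlog : ∀ᶠ X : ℕ in atTop,
      2 * ((2 / ε0) * Real.log (c * (X + 1))) ≤ (X : ℝ) ^ (1 - η) / 2 := by
    have h1 : Tendsto (fun x : ℝ => Real.log x / x ^ (1 - η)) atTop (𝓝 0) := by
      have := isLittleO_log_rpow_atTop (r := 1 - η) (by linarith)
      exact this.tendsto_div_nhds_zero
    have h2 : Tendsto (fun X : ℕ => c * ((X : ℝ) + 1)) atTop atTop := by
      refine Tendsto.const_mul_atTop hc0 ?_
      exact tendsto_atTop_add_const_right _ _ tendsto_natCast_atTop_atTop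
    have h3 := h1.comp h2
    set δ : ℝ := ε0 / 8 * ((2 * c)⁻¹) with hδ
    have hδ0 : 0 < δ := by positivity
    filter_upwards [h3.eventually (gt_mem_nhds hδ0), eventually_ge_atTop 1] with X hX hX1
    have hXr : (1 : ℝ) ≤ X := by exact_mod_cast hX1
    simp only [Function.comp_apply] at hX
    have hp : 0 < (c * ((X : ℝ) + 1)) ^ (1 - η) := Real.rpow_pos_of_pos (by positivity) _
    rw [div_lt_iff₀ hp] at hX
    have h4 : (c * ((X : ℝ) + 1)) ^ (1 - η) ≤ (2 * c) * (X : ℝ) ^ (1 - η) := by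
      calc (c * ((X : ℝ) + 1)) ^ (1 - η) ≤ ((2 * c) * (X : ℝ)) ^ (1 - η) := by
            refine Real.rpow_le_rpow (by positivity) ?_ (by linarith)
            nlinarith
        _ = (2 * c) ^ (1 - η) * (X : ℝ) ^ (1 - η) := Real.mul_rpow (by positivity) (by positivity)
        _ ≤ (2 * c) ^ (1 : ℝ) * (X : ℝ) ^ (1 - η) := by
            gcongr
            · linarith
            · linarith
        _ = _ := by rw [Real.rpow_one]
    have h5 : Real.log (c * ((X : ℝ) + 1)) ≤ δ * ((2 * c) * (X : ℝ) ^ (1 - η)) :=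
      hX.le.trans (by gcongr)
    have h6 : δ * ((2 * c) * (X : ℝ) ^ (1 - η)) = ε0 / 8 * (X : ℝ) ^ (1 - η) := by
      rw [hδ]; field_simp
    rw [h6] at h5
    calc 2 * ((2 / ε0) * Real.log (c * (X + 1))) ≤ 2 * ((2 / ε0) * (ε0 / 8 * (X : ℝ) ^ (1 - η))) := by
          gcongr
      _ = (X : ℝ) ^ (1 - η) / 2 := by field_simp; ring
  obtain ⟨X1, hX1⟩ := eventually_atTop.mp ((hT η hη0).and (hlog.and (eventually_ge_atTop 1)))
  set B : ℝ := c * (X1 + 1) with hB
  have hB0 : 0 < B := by positivity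
  refine ⟨C0 * (1 + B) + C1 * (4 * c), by positivity, ?_⟩
  intro l hl K _ _ hn hK
  rw [abs_discr_eq]
  set D := (discr K).natAbs with hD
  have hD2 : 2 < D := two_lt_D hn2 K hn
  have hDr : (2 : ℝ) < D := by exact_mod_cast hD2
  have hD0 : (0 : ℝ) < D := by linarith
  have hD1 : (1 : ℝ) ≤ D := by linarith
  have hlr : (1 : ℝ) ≤ l := by exact_mod_cast hl
  set θ : ℝ := 1 / (2 * l * (n - 1)) with hθ
  have hn1 : (1 : ℝ) ≤ n - 1 := by linarith
  have hθ0 : 0 < θ := by
    rw [hθ]; positivity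
  have hθ1 : θ ≤ 1 / 2 := by
    rw [hθ, div_le_div_iff₀ (by positivity) (by norm_num)]
    nlinarith
  have htriv := hC0 l K hn
  rw [← hD] at htriv
  have hmain : (Nat.card {c : ClassGroup (𝓞 K) // c ^ l = 1} : ℝ) ≤
      (C0 * (1 + B) + C1 * (4 * c)) * (D : ℝ) ^ (1 / 2 - θ + ε0) := by
    rcases le_or_gt θ (ε0 / 2) with hcase | hcase
    · calc (Nat.card {c : ClassGroup (𝓞 K) // c ^ l = 1} : ℝ) ≤ C0 * (D : ℝ) ^ (1 / 2 + ε0 / 4) := htriv
        _ ≤ C0 * (D : ℝ) ^ (1 / 2 - θ + ε0) :=
            mul_le_mul_of_nonneg_left (Real.rpow_le_rpow_of_exponent_le hD1 (by linarith)) hC00.le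
        _ ≤ _ := by
            have : C0 ≤ C0 * (1 + B) + C1 * (4 * c) := by
              have : 0 ≤ C0 * B + C1 * (4 * c) := by positivity
              linarith
            gcongr
    · set y : ℝ := (D : ℝ) ^ θ / c with hy
      have hy0 : 0 < y := by positivity
      set X : ℕ := ⌊y⌋₊ with hX
      rcases Nat.lt_or_ge X X1 with hlt | hge
      · -- bounded
        have h1 : (D : ℝ) ^ θ ≤ B := by
          have h2 : y < X + 1 := Nat.lt_floor_add_one y
          have h3 : (X : ℝ) + 1 ≤ X1 + 1 := by exact_mod_cast (by omega : X + 1 ≤ X1 + 1)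
          rw [hy, div_lt_iff₀ hc0] at h2
          rw [hB]
          nlinarith
        calc (Nat.card {c : ClassGroup (𝓞 K) // c ^ l = 1} : ℝ)
            ≤ C0 * (D : ℝ) ^ (1 / 2 + ε0 / 4) := htriv
          _ = C0 * ((D : ℝ) ^ θ * (D : ℝ) ^ (1 / 2 - θ + ε0 / 4)) := by
              rw [← Real.rpow_add hD0]
              congr 2
              ring
          _ ≤ C0 * (B * (D : ℝ) ^ (1 / 2 - θ + ε0)) :=
              mul_le_mul_of_nonneg_left (mul_le_mul h1
                (Real.rpow_le_rpow_of_exponent_le hD1 (by linarith)) (by positivity) hB0.le) hC00.le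
          _ ≤ _ := by
              have : C0 * B ≤ C0 * (1 + B) + C1 * (4 * c) := by
                have : 0 ≤ C0 + C1 * (4 * c) := by positivity
                linarith
              calc C0 * (B * (D : ℝ) ^ (1 / 2 - θ + ε0)) = (C0 * B) * (D : ℝ) ^ (1 / 2 - θ + ε0) := by
                    ring
                _ ≤ _ := by gcongr
      · obtain ⟨g1, g2, g3⟩ := hX1 X hge
        have hXr : (1 : ℝ) ≤ X := by exact_mod_cast g3
        have hXy : (X : ℝ) ≤ y := Nat.floor_le hy0.le
        have hyX : y < X + 1 := Nat.lt_floor_add_one y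
        -- the primes
        set S : Finset ℕ := ((range (X + 1)).filter fun p => p.Prime ∧ T p).filter
          (fun p => ¬ p ∣ D) with hS
        have hSX : ∀ p ∈ S, p ≤ X := by
          intro p hp
          have := Finset.mem_range.mp (Finset.mem_filter.mp (Finset.mem_filter.mp hp).1).1
          omega
        have hSgood : ∀ p ∈ S, p.Prime ∧ ¬ p ∣ (discr K).natAbs ∧
            ∃ P : Ideal (𝓞 K), Ideal.absNorm P = p := by
          intro p hp
          obtain ⟨h1, h2⟩ := Finset.mem_filter.mp hp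
          obtain ⟨-, h3, h4⟩ := Finset.mem_filter.mp h1
          exact ⟨h3, h2, hK p h3 h4 h2⟩
        have hcount : (X : ℝ) ^ (1 - η) / 2 ≤ S.card := by
          have h1 : ((range (X + 1)).filter fun p => p.Prime ∧ T p).card ≤
              S.card + D.primeFactors.card := by
            rw [hS, ← Finset.card_filter_add_card_filter_not (fun p => ¬ p ∣ D)]
            refine Nat.add_le_add_left (Finset.card_le_card ?_) _
            intro p hp
            obtain ⟨h1, h2⟩ := Finset.mem_filter.mp hp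
            obtain ⟨-, h3, -⟩ := Finset.mem_filter.mp h1
            rw [not_not] at h2
            exact Nat.mem_primeFactors.mpr ⟨h3, h2, by omega⟩
          have h2 : (((range (X + 1)).filter fun p => p.Prime ∧ T p).card : ℝ) ≤
              S.card + D.primeFactors.card := by exact_mod_cast h1
          have h3 := card_primeFactors_le D (by omega)
          have h4 : Real.log D ≤ (2 / ε0) * Real.log (c * (X + 1)) := by
            have h5 : (D : ℝ) ^ θ ≤ c * (X + 1) := by
              rw [hy, div_lt_iff₀ hc0] at hyX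
              linarith
            have h6 := Real.log_le_log (by positivity) h5
            rw [Real.log_rpow hD0] at h6
            have h7 : 0 ≤ Real.log D := Real.log_nonneg hD1
            rw [div_mul_eq_mul_div, le_div_iff₀ hε0]
            nlinarith
          linarith
        have key := hC1 l hl K hn S hSgood 1 X hSX (by
          rw [abs_discr_eq, ← hD, pow_one]
          exact size_cond hn2 hl hDr (by positivity) hXy)
        rw [← hD, Nat.choose_one_right] at key
        have hX2 : y / 2 ≤ X := by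
          linarith
        have h5 : (D : ℝ) ^ (θ - η) / (2 * c) ≤ (X : ℝ) ^ (1 - η) := by
          calc (D : ℝ) ^ (θ - η) / (2 * c) ≤ (D : ℝ) ^ (θ * (1 - η)) / (2 * c) := by
                refine div_le_div_of_nonneg_right
                  (Real.rpow_le_rpow_of_exponent_le hD1 (by nlinarith)) (by positivity)
            _ ≤ (D : ℝ) ^ (θ * (1 - η)) / (2 * c) ^ (1 - η) := by
                gcongr
                calc (2 * c) ^ (1 - η) ≤ (2 * c) ^ (1 : ℝ) :=
                      Real.rpow_le_rpow_of_exponent_le (by linarith) (by linarith)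
                  _ = 2 * c := Real.rpow_one _
            _ = (y / 2) ^ (1 - η) := by
                rw [hy, Real.rpow_mul hD0.le, ← Real.div_rpow (by positivity) (by positivity)]
                congr 1
                field_simp
            _ ≤ (X : ℝ) ^ (1 - η) := Real.rpow_le_rpow (by positivity) hX2 (by linarith)
        set N : ℝ := (Nat.card {c : ClassGroup (𝓞 K) // c ^ l = 1} : ℝ) with hN
        have hN0 : 0 ≤ N := Nat.cast_nonneg _
        have hpos : 0 < (D : ℝ) ^ (θ - η) / (4 * c) := by positivity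
        have h6 : N * ((D : ℝ) ^ (θ - η) / (4 * c)) ≤ C1 * (D : ℝ) ^ (1 / 2 + ε0 / 4) := by
          refine le_trans ?_ key
          gcongr
          calc (D : ℝ) ^ (θ - η) / (4 * c) = ((D : ℝ) ^ (θ - η) / (2 * c)) / 2 := by
                field_simp; norm_num
            _ ≤ (X : ℝ) ^ (1 - η) / 2 := by gcongr
            _ ≤ S.card := hcount
        calc N = N * ((D : ℝ) ^ (θ - η) / (4 * c)) * ((4 * c) * (D : ℝ) ^ (-(θ - η))) := by
              rw [Real.rpow_neg hD0.le]
              field_simp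
          _ ≤ C1 * (D : ℝ) ^ (1 / 2 + ε0 / 4) * ((4 * c) * (D : ℝ) ^ (-(θ - η))) := by gcongr
          _ = C1 * (4 * c) * (D : ℝ) ^ (1 / 2 - θ + ε0 / 2) := by
              have : (D : ℝ) ^ (1 / 2 - θ + ε0 / 2) =
                  (D : ℝ) ^ (1 / 2 + ε0 / 4) * (D : ℝ) ^ (-(θ - η)) := by
                rw [← Real.rpow_add hD0]
                congr 1
                rw [hη]; ring
              rw [this]; ring
          _ ≤ C1 * (4 * c) * (D : ℝ) ^ (1 / 2 - θ + ε0) :=
              mul_le_mul_of_nonneg_left (Real.rpow_le_rpow_of_exponent_le hD1 (by linarith))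
                (by positivity)
          _ ≤ _ := by
              have : C1 * (4 * c) ≤ C0 * (1 + B) + C1 * (4 * c) := by
                have : 0 ≤ C0 * (1 + B) := by positivity
                linarith
              gcongr
  refine hmain.trans ?_
  gcongr

end Pool.Agent.V7H55.LT
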