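import Pool.Agent.V7H55.LT.Frob
import Pool.Agent.V7H55.LT.Engine

/-! Fields in which primes with a given Frobenius element in a fixed field are norms. -/

set_option autoImplicit false

namespace Pool.Agent.V7H55.LT

open NumberField Filter Topology Finset Pool.Agent.W401.Cheb
open scoped Classical

/-- the primes with a homomorphism of Frobenius `g` (at which the torsor property holds) -/
def GoodP (F : Type) [Field F] [NumberField F] [IsGalois ℚ F] (g : Gal(F/ℚ)) (p : ℕ) : Prop :=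
  ∃ _ : Fact p.Prime, TorAt F p ∧ ∃ φ : 𝓞 F →+* AlgebraicClosure (ZMod p), HasFrob p φ g

/-- lower bound for the number of such primes -/
theorem good_count (F : Type) [Field F] [NumberField F] [IsGalois ℚ F] (g : Gal(F/ℚ)) :
    ∃ c : ℝ, 0 < c ∧ ∀ᶠ X : ℕ in atTop, c * (Nat.primeCounting X : ℝ) ≤
      (((range (X + 1)).filter fun p => p.Prime ∧ GoodP F g p).card : ℝ) := by
  obtain ⟨A, hA0, htor⟩ := torsor F
  set n : ℕ := Nat.card Gal(F/ℚ) with hn
  have hn0 : 0 < n := Nat.card_pos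
  have hle : ∀ p : ℕ, p.Prime → ¬ p ∣ A → xp F g p ≤ n := by
    intro p hp hpA
    have hpF : Fact p.Prime := ⟨hp⟩
    have ht := (htor p hpA).1
    have hfin : Finite (𝓞 F →+* AlgebraicClosure (ZMod p)) := by
      refine Nat.finite_of_card_ne_zero ?_
      rw [ht]
      exact hn0.ne'
    unfold xp
    rw [dif_pos hp, hn, ← ht]
    exact Nat.card_le_card_of_injective _ Subtype.val_injective
  let good : ℕ → Prop := fun p => ¬ p ∣ A ∧ xp F g p ≠ 0
  let a : ℕ → ℝ := fun p => if p ∣ A then 0 else (xp F g p : ℝ)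
  have ha : Tendsto (M a) atTop (𝓝 1) := by
    refine M_congr hA0 (b := fun p => (xp F g p : ℝ)) ?_ (chebotarev F g)
    intro p _ hpA
    simp only [a, if_neg hpA]
  have hab : ∀ p, p.Prime → a p ≤ (fun p => (n : ℝ) * (if good p then 1 else 0)) p := by
    intro p hp
    simp only [a, good]
    by_cases h1 : p ∣ A
    · rw [if_pos h1]
      split_ifs <;> simp
    · rw [if_neg h1]
      by_cases h2 : xp F g p = 0
      · rw [h2]
        split_ifs <;> simp
      · rw [if_pos ⟨h1, h2⟩, mul_one]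
        exact_mod_cast hle p hp h1
  refine ⟨1 / (2 * n), by positivity, ?_⟩
  have h12 : ∀ᶠ N : ℕ in atTop, (1 / 2 : ℝ) < M a N := ha.eventually (lt_mem_nhds (by norm_num))
  filter_upwards [h12, eventually_ge_atTop 2] with X hX hX2
  have hpc : 0 < (Nat.primeCounting X : ℝ) := by
    have : Nat.primeCounting X ≠ 0 := by
      rw [Ne, Nat.primeCounting_eq_zero_iff]
      omega
    exact_mod_cast Nat.pos_of_ne_zero this
  have h3 : (1 / 2 : ℝ) < M (fun p => (n : ℝ) * (if good p then 1 else 0)) X :=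
    lt_of_lt_of_le hX (M_mono hab X)
  rw [M_smul] at h3
  unfold M at h3
  have h4 : (∑ p ∈ pr X, (if good p then (1 : ℝ) else 0)) = (((pr X).filter good).card : ℝ) := by
    rw [Finset.sum_ite, Finset.sum_const_zero, add_zero, Finset.sum_const, nsmul_eq_mul, mul_one]
  rw [h4] at h3
  have hn1 : (0 : ℝ) < n := by exact_mod_cast hn0
  have h5 : 1 / (2 * (n : ℝ)) * (Nat.primeCounting X : ℝ) ≤ (((pr X).filter good).card : ℝ) := by
    have h6 : (n : ℝ) * ((((pr X).filter good).card : ℝ) / (Nat.primeCounting X : ℝ)) =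
      (n * (((pr X).filter good).card : ℝ)) / (Nat.primeCounting X : ℝ) := by ring
    rw [h6, lt_div_iff₀ hpc] at h3
    rw [div_mul_eq_mul_div, one_mul, div_le_iff₀ (by positivity)]
    linarith
  refine h5.trans ?_
  refine Nat.cast_le.2 (Finset.card_le_card ?_)
  intro p hp
  obtain ⟨hp1, hp2, hp3⟩ := Finset.mem_filter.1 hp
  obtain ⟨hpX, hpp⟩ := mem_pr.1 hp1
  have hpF : Fact p.Prime := ⟨hpp⟩
  refine Finset.mem_filter.2 ⟨Finset.mem_range.2 (by omega), hpp, hpF, htor p hp2, ?_⟩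
  unfold xp at hp3
  rw [dif_pos hpp] at hp3
  obtain ⟨⟨⟨φ₀, hφ₀⟩⟩, -⟩ := Nat.card_ne_zero.1 hp3
  exact ⟨φ₀, hφ₀⟩

/-- a positive proportion of the primes is a dense set -/
theorem dense_of_count (N : ℕ → ℝ) (c : ℝ) (hc : 0 < c)
    (h : ∀ᶠ X : ℕ in atTop, c * (Nat.primeCounting X : ℝ) ≤ N X) (η : ℝ) (hη : 0 < η) :
    ∀ᶠ X : ℕ in atTop, (X : ℝ) ^ (1 - η) ≤ N X := by
  have hl2 := Real.log_two_gt_d9
  -- `log X ≤ (c / 4) X ^ η` and `log (X + 1) ≤ X / 4`
  have h1 : Tendsto (fun x : ℝ => Real.log x / x ^ η) atTop (𝓝 0) :=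
    (isLittleO_log_rpow_atTop hη).tendsto_div_nhds_zero
  have h2 : Tendsto (fun x : ℝ => Real.log x / x ^ (1 : ℝ)) atTop (𝓝 0) :=
    (isLittleO_log_rpow_atTop one_pos).tendsto_div_nhds_zero
  have h3 := h1.comp tendsto_natCast_atTop_atTop
  have h4 := h2.comp (tendsto_atTop_add_const_right atTop (1 : ℝ)
    (tendsto_natCast_atTop_atTop (R := ℝ)))
  filter_upwards [h, h3.eventually (gt_mem_nhds (show 0 < c / 4 by positivity)),
    h4.eventually (gt_mem_nhds (show (0 : ℝ) < 1 / 8 by norm_num)), eventually_ge_atTop 3]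
    with X hX e1 e2 hX3
  have hXr : (3 : ℝ) ≤ X := by exact_mod_cast hX3
  simp only [Function.comp_apply] at e1 e2
  have hXp : 0 < (X : ℝ) ^ η := Real.rpow_pos_of_pos (by linarith) _
  rw [div_lt_iff₀ hXp] at e1
  rw [Real.rpow_one, div_lt_iff₀ (by linarith)] at e2
  have hlX : 0 < Real.log X := Real.log_pos (by linarith)
  have h5 := Chebyshev.pi_ge X
  rw [div_le_iff₀ hlX] at h5
  have h6 : (X : ℝ) / 4 ≤ (Nat.primeCounting X : ℝ) * Real.log X := by
    have : (X : ℝ) * 0.6931471803 ≤ X * Real.log 2 := by gcongr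
    nlinarith
  refine le_trans ?_ hX
  have h7 : (X : ℝ) ^ (1 - η) * Real.log X ≤ c * (Nat.primeCounting X : ℝ) * Real.log X := by
    calc (X : ℝ) ^ (1 - η) * Real.log X ≤ (X : ℝ) ^ (1 - η) * (c / 4 * (X : ℝ) ^ η) := by
          gcongr
      _ = c / 4 * ((X : ℝ) ^ (1 - η) * (X : ℝ) ^ η) := by ring
      _ = c / 4 * X := by
          rw [← Real.rpow_add (by linarith)]
          simp
      _ = c * (X / 4) := by ring
      _ ≤ c * ((Nat.primeCounting X : ℝ) * Real.log X) := by gcongr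
      _ = _ := by ring
  exact le_of_mul_le_mul_right h7 hlX

/-- **Forcing.** Every automorphism of some Galois extension `M` of `F` which acts on `F` as `g`
fixes all the elements of some conjugate of `K` in `M`. -/
def Forces (F : Type) [Field F] [NumberField F] (g : Gal(F/ℚ)) (K : Type) [Field K]
    [NumberField K] : Prop :=
  ∃ (M : Type) (_ : Field M) (_ : NumberField M) (_ : IsGalois ℚ M) (i : F →ₐ[ℚ] M),
    ∀ σ : Gal(M/ℚ), (∀ x : F, σ (i x) = i (g x)) → ∃ τ : K →ₐ[ℚ] M, ∀ x : K, σ (τ x) = τ x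

theorem ideal_of_good {F : Type} [Field F] [NumberField F] [IsGalois ℚ F] {g : Gal(F/ℚ)}
    {K : Type} [Field K] [NumberField K] (hK : Forces F g K) {p : ℕ} (hp : GoodP F g p) :
    ∃ P : Ideal (𝓞 K), Ideal.absNorm P = p := by
  obtain ⟨M, _, _, _, i, hM⟩ := hK
  obtain ⟨hpF, ht, φ, hφ⟩ := hp
  obtain ⟨ψ, σ, hσ, hσF⟩ := extend_frob i ht φ g hφ
  obtain ⟨τ, hτ⟩ := hM σ hσF
  exact ideal_of_fixed ψ σ hσ τ hτ

/-- **The bound for fields forced by a fixed field.** -/
theorem forced (F : Type) [Field F] [NumberField F] [IsGalois ℚ F] (g : Gal(F/ℚ)) (n : ℕ)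
    (hn2 : 2 ≤ n) (ε : ℝ) (hε : 0 < ε) : ∃ C : ℝ, 0 < C ∧ ∀ l : ℕ, 1 ≤ l →
    ∀ (K : Type) [Field K] [NumberField K], Module.finrank ℚ K = n → Forces F g K →
    (Nat.card {c : ClassGroup (𝓞 K) // c ^ l = 1} : ℝ) ≤
      C * |(discr K : ℝ)| ^ (1 / 2 - 1 / (2 * l * (n - 1)) + ε : ℝ) := by
  obtain ⟨c, hc, hcount⟩ := good_count F g
  obtain ⟨C, hC0, hC⟩ := engine n hn2 ε hε (GoodP F g)
    (fun η hη => dense_of_count _ c hc hcount η hη)
  exact ⟨C, hC0, fun l hl K _ _ hn hK => hC l hl K hn fun p _ hp _ => ideal_of_good hK hp⟩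

end Pool.Agent.V7H55.LT
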