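import Pool.Agent.V7H55.LT.Quad

/-!
# `l`-torsion in the class groups of all fields with a given resolvent field

Let `K` be a number field of degree `n` and `D = |disc K|`.  Ellenberg and Venkatesh bound the
number of ideal classes killed by `l` by `C D ^ (1 / 2 - 1 / (2 l (n - 1)) + ε)` if there are enough
small primes with a prime factor of degree one in `K`, for instance under GRH, and this is known for
almost all the fields in several families.  The theorem of this file gives this bound, with a
constant that does not depend on `l` and `K`, for ALL the fields `K` in which the primes with a given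
Frobenius class `g` in a given Galois extension `F` of `ℚ` are forced to have a prime factor of
degree one.  Besides the general criterion (`Forced`) it contains three explicit classes of such
fields, among them

* all noncyclic cubic fields with a given quadratic resolvent, all quartic fields with group `A₄` or
  `S₄` and a given cubic resolvent (`DegreeSucc`);
* all fields of prime degree with solvable noncyclic group and a given resolvent field, for example
  dihedral fields with a given quadratic resolvent (`FrobeniusType`);
* all quartic fields with group `D₄` whose normal closure contains a given biquadratic field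
  (`QuadraticOver`), where the bound was known for almost all fields.

Proof: by Chebotarev's theorem (from the starting files) the Frobenius class occurs for a positive
proportion of the primes; at such a prime `p` a Frobenius element of a large Galois extension fixes a
conjugate of `K`, which gives an ideal of norm `p`.  The inequality of Ellenberg and Venkatesh is
proved in the sharp form with the exponent `1 / (2 l (n - 1))`, from the packing argument of the
starting files.
-/

set_option autoImplicit false

open scoped NumberField
open NumberField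

namespace Pool.Agent.Results.MP_695920_nt.FixedResolventsH55

/-- The general criterion: in some Galois extension `M` of `ℚ` which contains `F` (by `i`), every
automorphism which acts on `F` as `g` fixes all the elements of some conjugate `τ(K)` of `K`. -/
def Forced (F : Type) [Field F] [NumberField F] (g : Gal(F/ℚ)) (K : Type) [Field K]
    [NumberField K] : Prop :=
  ∃ (M : Type) (_ : Field M) (_ : NumberField M) (_ : IsGalois ℚ M) (i : F →ₐ[ℚ] M),
    ∀ σ : Gal(M/ℚ), (∀ x : F, σ (i x) = i (g x)) → ∃ τ : K →ₐ[ℚ] M, ∀ x : K, σ (τ x) = τ x

/-- `g` has prime order, `[K : ℚ]` is this prime plus one, and `F` embeds in the normal closure of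
`K`. -/
def DegreeSucc (F : Type) [Field F] [NumberField F] (g : Gal(F/ℚ)) (K : Type) [Field K]
    [NumberField K] : Prop :=
  (orderOf g).Prime ∧ Module.finrank ℚ K = orderOf g + 1 ∧
  ∃ (M : Type) (_ : Field M) (_ : NumberField M), IsNormalClosure ℚ K M ∧ Nonempty (F →ₐ[ℚ] M)

/-- The normal closure `M` of `K` is generated by any two different conjugates of `K`, `F` embeds in
`M`, and the order of `g` does not divide `[K : ℚ]`. -/
def FrobeniusType (F : Type) [Field F] [NumberField F] (g : Gal(F/ℚ)) (K : Type) [Field K]
    [NumberField K] : Prop :=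
  ¬ orderOf g ∣ Module.finrank ℚ K ∧
  ∃ (M : Type) (_ : Field M) (_ : NumberField M), IsNormalClosure ℚ K M ∧ Nonempty (F →ₐ[ℚ] M) ∧
    ∀ τ τ' : K →ₐ[ℚ] M, τ ≠ τ' → τ.fieldRange ⊔ τ'.fieldRange = ⊤

/-- `K = k(β)` with `β ^ 2 = α ∈ k`, where `k` embeds in `F`, `g` acts trivially on all conjugates
of `k` in `F`, and the norm `N(α)` from `k` to `ℚ` is the square of an element `s` of `F` such that
`g s = (-1) ^ ([k : ℚ] + 1) s` (if `[k : ℚ]` is even, `g` changes the sign of `s`). -/
def QuadraticOver (F : Type) [Field F] [NumberField F] (g : Gal(F/ℚ)) (K : Type) [Field K]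
    [NumberField K] : Prop :=
  ∃ (k : Type) (_ : Field k) (_ : NumberField k) (_ : Algebra k K) (β : K) (α : k) (s : F),
    Nonempty (k →ₐ[ℚ] F) ∧ (∀ (τ : k →ₐ[ℚ] F) (x : k), g (τ x) = τ x) ∧
    β ^ 2 = algebraMap k K α ∧ IntermediateField.adjoin k {β} = ⊤ ∧
    s ^ 2 = algebraMap ℚ F (Algebra.norm ℚ α) ∧ g s = (-1) ^ (Module.finrank ℚ k + 1) * s

/-- For every Galois extension `F` of `ℚ`, every `g` in its Galois group, every `n ≥ 2` and `ε > 0`
there is a constant `C` such that for all `l ≥ 1` and all number fields `K` of degree `n` of one of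
the four kinds above, with `D = |disc K|`, at most `C D ^ (1 / 2 - 1 / (2 l (n - 1)) + ε)` ideal
classes of `K` are killed by `l`. -/
theorem result (F : Type) [Field F] [NumberField F] [IsGalois ℚ F] (g : Gal(F/ℚ)) (n : ℕ)
    (hn : 2 ≤ n) (ε : ℝ) (hε : 0 < ε) : ∃ C : ℝ, 0 < C ∧ ∀ l : ℕ, 1 ≤ l →
    ∀ (K : Type) [Field K] [NumberField K], Module.finrank ℚ K = n →
    Forced F g K ∨ DegreeSucc F g K ∨ FrobeniusType F g K ∨ QuadraticOver F g K →
    (Nat.card {c : ClassGroup (𝓞 K) // c ^ l = 1} : ℝ) ≤
      C * |(discr K : ℝ)| ^ (1 / 2 - 1 / (2 * l * (n - 1)) + ε : ℝ) := by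
  obtain ⟨C, hC0, hC⟩ := Pool.Agent.V7H55.LT.forced F g n hn ε hε
  refine ⟨C, hC0, ?_⟩
  intro l hl K _ _ hK h
  refine hC l hl K hK ?_
  rcases h with h | ⟨hp, hKp, M, _, _, hM, ⟨i⟩⟩ | ⟨hg, M, _, _, hM, ⟨i⟩, hfr⟩ |
    ⟨k, _, _, _, β, α, s, hkF, hg, hβ, htop, hs, hgs⟩
  · exact h
  · exact Pool.Agent.V7H55.LT.forces_succ hp g rfl K M hKp i
  · exact Pool.Agent.V7H55.LT.forces_frob g K M hg hfr i
  · exact Pool.Agent.V7H55.LT.forces_quad g β α s hkF hg hβ htop hs hgs

end Pool.Agent.Results.MP_695920_nt.FixedResolventsH55
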