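import Pool.Agent.W401.Cheb.Main
import Pool.Agent.K3h73.RS.Cheb

/-! Ideals of prime norm forced by Frobenius elements. -/

set_option autoImplicit false

namespace Pool.Agent.V7H55.LT

open NumberField Filter Topology Finset Pool.Agent.W401.Cheb

section
variable {M : Type} [Field M] [NumberField M]

/-- two homomorphisms of the ring of integers of a Galois extension differ by an automorphism -/
theorem hom_trans [IsGalois ℚ M] {k : Type} [Field k] (φ φ' : 𝓞 M →+* k) :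
    ∃ σ : Gal(M/ℚ), ∀ y, φ' y = φ (σ • y) := by
  refine W54.ChTor.trans φ φ' fun b hb => ?_
  have hb1 : ∀ σ : Gal(M/ℚ), σ (b : M) = (b : M) := fun σ =>
    congrArg (algebraMap (𝓞 M) M) (hb σ)
  have hb2 : (b : M) ∈ (⊥ : IntermediateField ℚ M) :=
    (IsGalois.mem_bot_iff_fixed (F := ℚ) (E := M) (b : M)).mpr hb1
  obtain ⟨q, hq⟩ := IntermediateField.mem_bot.mp hb2
  have hint : IsIntegral ℤ q := by
    rw [← isIntegral_algebraMap_iff (algebraMap ℚ M).injective, hq]
    exact b.2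
  obtain ⟨n, hn⟩ := IsIntegrallyClosed.isIntegral_iff.mp hint
  have : (n : 𝓞 M) = b := by
    apply RingOfIntegers.ext
    rw [← hq, ← hn]
    simp
  rw [← this, map_intCast, map_intCast]

theorem exists_hom (M : Type) [Field M] [NumberField M] (p : ℕ) [Fact p.Prime] :
    Nonempty (𝓞 M →+* AlgebraicClosure (ZMod p)) := by
  obtain ⟨φ₀, -⟩ := W54.ChTor.exists_ext (A := ℤ) (B := 𝓞 M) (RingHom.injective_int _) p
    (Int.castRingHom (ZMod p))
  exact ⟨φ₀⟩

/-- Frobenius elements exist at all primes -/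
theorem exists_frob_all [IsGalois ℚ M] {p : ℕ} [Fact p.Prime]
    (φ : 𝓞 M →+* AlgebraicClosure (ZMod p)) : ∃ σ : Gal(M/ℚ), HasFrob p φ σ := by
  obtain ⟨σ, hσ⟩ := hom_trans φ ((frobenius (AlgebraicClosure (ZMod p)) p).comp φ)
  exact ⟨σ, fun x => (hσ x).symm⟩

/-- if a Frobenius element fixes a conjugate of `K`, then `K` has an ideal of norm `p` -/
theorem ideal_of_fixed {K : Type} [Field K] [NumberField K] {p : ℕ} [Fact p.Prime]
    (φ : 𝓞 M →+* AlgebraicClosure (ZMod p)) (σ : Gal(M/ℚ)) (hσ : HasFrob p φ σ)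
    (τ : K →ₐ[ℚ] M) (h : ∀ x : K, σ (τ x) = τ x) :
    ∃ P : Ideal (𝓞 K), Ideal.absNorm P = p := by
  refine ⟨_, Pool.Agent.K3h73.RS.absNorm_ker (φ.comp (RingOfIntegers.mapRingHom (τ : K →+* M)))
    fun x => ?_⟩
  rw [RingHom.comp_apply, ← hσ]
  congr 1
  apply RingOfIntegers.ext
  rw [W54.ChTor.coe_smul, RingOfIntegers.mapRingHom_apply]
  exact h x

end

/-- extension of a Frobenius element to a larger Galois extension -/
theorem extend_frob {F M : Type} [Field F] [NumberField F] [IsGalois ℚ F] [Field M]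
    [NumberField M] [IsGalois ℚ M] (i : F →ₐ[ℚ] M) {p : ℕ} [Fact p.Prime] (ht : TorAt F p)
    (φ : 𝓞 F →+* AlgebraicClosure (ZMod p)) (g : Gal(F/ℚ)) (hg : HasFrob p φ g) :
    ∃ (ψ : 𝓞 M →+* AlgebraicClosure (ZMod p)) (σ : Gal(M/ℚ)), HasFrob p ψ σ ∧
      ∀ x : F, σ (i x) = i (g x) := by
  letI : Algebra F M := i.toRingHom.toAlgebra
  haveI : IsScalarTower ℚ F M := IsScalarTower.of_algebraMap_eq fun x => (i.commutes x).symm
  have hi : ∀ x : F, algebraMap F M x = i x := fun _ => rfl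
  obtain ⟨ψ0⟩ := exists_hom M p
  obtain ⟨h, hh⟩ := hom_trans (ψ0.comp (RingOfIntegers.mapRingHom (i : F →+* M))) φ
  let h' : Gal(M/ℚ) := AlgEquiv.liftNormal h M
  have hh' : ∀ x : F, h' (i x) = i (h x) := fun x => AlgEquiv.liftNormal_commutes h M x
  let ψ : 𝓞 M →+* AlgebraicClosure (ZMod p) := tw ψ0 h'
  have hψ : ∀ y : 𝓞 F, ψ (RingOfIntegers.mapRingHom (i : F →+* M) y) = φ y := by
    intro y
    rw [hh y, RingHom.comp_apply]
    change ψ0 (h' • _) = _
    congr 1
    apply RingOfIntegers.ext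
    rw [W54.ChTor.coe_smul, RingOfIntegers.mapRingHom_apply, RingOfIntegers.mapRingHom_apply,
      W54.ChTor.coe_smul]
    exact hh' y
  obtain ⟨σ, hσ⟩ := exists_frob_all ψ
  refine ⟨ψ, σ, hσ, ?_⟩
  let ρ : Gal(F/ℚ) := AlgEquiv.restrictNormal σ F
  have hρ : ∀ x : F, i (ρ x) = σ (i x) := fun x => AlgEquiv.restrictNormal_commutes σ F x
  have hρF : HasFrob p φ ρ := by
    intro y
    rw [← hψ, ← hψ, ← hσ]
    congr 1
    apply RingOfIntegers.ext
    rw [W54.ChTor.coe_smul, RingOfIntegers.mapRingHom_apply, RingOfIntegers.mapRingHom_apply,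
      W54.ChTor.coe_smul]
    exact hρ y
  have hρg : ρ = g := frob_unique ht hρF hg
  intro x
  rw [← hρ x, hρg]

end Pool.Agent.V7H55.LT
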