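import Pool.Agent.V7H55.LT.Ev

/-! Generators of the field and the discriminant: quotients of products of primes of degree one. -/

set_option autoImplicit false

namespace Pool.Agent.V7H55.LT

open NumberField Finset Pool.Agent.TH847.LS Pool.Agent.TH847.LG NumberField.InfinitePlace
  IntermediateField
open scoped Classical nonZeroDivisors

variable {K : Type} [Field K] [NumberField K]

/-- an integer divisible exactly by one prime above `q`, of degree one and unramified, generates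
the field -/
theorem gen_top_gen (z : 𝓞 K) (Q R I : Ideal (𝓞 K)) {q l : ℕ} (hq : q.Prime)
    (hl : 1 ≤ l) (hQ : Ideal.absNorm Q = q)
    (hQR : Q * R = Ideal.span {((q : ℕ) : 𝓞 K)}) (hQR' : ¬ Q ∣ R)
    (hI : Nat.Coprime (Ideal.absNorm I) q)
    (hz : Ideal.span {z} = Q ^ l * I) : ℚ⟮(z : K)⟯ = ⊤ := by
  have hQp : Q.IsPrime := Ideal.isPrime_of_irreducible_absNorm (by rw [hQ]; exact hq)
  have hQ0 : Q ≠ ⊥ := by
    rintro rfl
    rw [Ideal.absNorm_bot] at hQ
    exact hq.ne_zero hQ.symm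
  have hQm : Q.IsMaximal := hQp.isMaximal hQ0
  have hn0 : NumberField ℚ⟮(z : K)⟯ := of_intermediateField _
  have hint : IsIntegral ℤ (AdjoinSimple.gen ℚ (z : K)) := by
    rw [← isIntegral_algebraMap_iff (algebraMap ℚ⟮(z : K)⟯ K).injective]
    exact RingOfIntegers.isIntegral_coe z
  let zF : 𝓞 ℚ⟮(z : K)⟯ := ⟨AdjoinSimple.gen ℚ (z : K), hint⟩
  have hzF : algebraMap (𝓞 ℚ⟮(z : K)⟯) (𝓞 K) zF = z := by
    apply RingOfIntegers.ext
    rfl
  set I' := (Q.comap (algebraMap (𝓞 ℚ⟮(z : K)⟯) (𝓞 K))).map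
    (algebraMap (𝓞 ℚ⟮(z : K)⟯) (𝓞 K)) with hI'
  have hzQ : z ∈ Q := by
    have h1 : Ideal.span {z} ≤ Q := by
      rw [hz]
      exact Ideal.mul_le_left.trans (Ideal.pow_le_self (n := l) (by omega))
    exact h1 (Ideal.mem_span_singleton_self z)
  have hzI : z ∈ I' := by
    rw [← hzF]
    apply Ideal.mem_map_of_mem
    rw [Ideal.mem_comap, hzF]
    exact hzQ
  have hqQ : ((q : ℕ) : 𝓞 K) ∈ Q := by
    rw [← hQ]
    exact Ideal.absNorm_mem Q
  have hqI : ((q : ℕ) : 𝓞 K) ∈ I' := by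
    have h1 : algebraMap (𝓞 ℚ⟮(z : K)⟯) (𝓞 K) ((q : ℕ) : 𝓞 ℚ⟮(z : K)⟯) = ((q : ℕ) : 𝓞 K) :=
      map_natCast _ _
    rw [← h1]
    apply Ideal.mem_map_of_mem
    rw [Ideal.mem_comap, h1]
    exact hqQ
  have hIz : I' ∣ Q ^ l * I := by
    rw [← hz, Ideal.dvd_iff_le, Ideal.span_le, Set.singleton_subset_iff]
    exact hzI
  have hIq : I' ∣ Q * R := by
    rw [hQR, Ideal.dvd_iff_le, Ideal.span_le, Set.singleton_subset_iff]
    exact hqI
  have hcop : IsCoprime I' R := by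
    rw [Ideal.isCoprime_iff_sup_eq]
    by_contra hne
    obtain ⟨M, hM, hle⟩ := Ideal.exists_le_maximal _ hne
    have hIM : I' ≤ M := le_sup_left.trans hle
    have hRM : R ≤ M := le_sup_right.trans hle
    have h1 : M ∣ Q ^ l * I := (Ideal.dvd_iff_le.mpr hIM).trans hIz
    have hqM : ((q : ℕ) : 𝓞 K) ∈ M := hIM hqI
    have hM0 : M ≠ ⊥ := by
      rintro rfl
      rw [Ideal.mem_bot] at hqM
      exact hq.ne_zero (by exact_mod_cast hqM)
    have hMp : Prime M := Ideal.prime_of_isPrime hM0 hM.isPrime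
    rcases hMp.dvd_or_dvd h1 with h2 | h2
    · have h3 : Q ≤ M := Ideal.le_of_dvd (hMp.dvd_of_dvd_pow h2)
      have h4 : Q = M := hQm.eq_of_le hM.ne_top h3
      rw [← h4] at hRM
      exact hQR' (Ideal.dvd_iff_le.mpr hRM)
    · have h4 : Ideal.absNorm M ∣ Ideal.absNorm I :=
        Ideal.absNorm_dvd_absNorm_of_le (Ideal.le_of_dvd h2)
      have h5 : Ideal.absNorm M ∣ q ^ Module.finrank ℤ (𝓞 K) := by
        rw [← Ideal.absNorm_span_natCast]
        refine Ideal.absNorm_dvd_absNorm_of_le ?_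
        rw [Ideal.span_le, Set.singleton_subset_iff]
        exact hqM
      have h6 : Nat.Coprime (Ideal.absNorm I) (q ^ Module.finrank ℤ (𝓞 K)) :=
        Nat.Coprime.pow_right _ hI
      have h7 : Ideal.absNorm M = 1 := Nat.eq_one_of_dvd_coprimes h6 h4 h5
      exact hM.ne_top (Ideal.absNorm_eq_one_iff.mp h7)
  have hIQ : I' ∣ Q := hcop.dvd_of_dvd_mul_right hIq
  have hQI : Q ∣ I' := by
    rw [Ideal.dvd_iff_le]
    exact Ideal.map_comap_le
  have hIeq : I' = Q := dvd_antisymm hIQ hQI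
  set d := Module.finrank (𝓞 ℚ⟮(z : K)⟯) (𝓞 K) with hd
  have h1 : q = Ideal.absNorm (Q.comap (algebraMap (𝓞 ℚ⟮(z : K)⟯) (𝓞 K))) ^ d := by
    have h0 := Ideal.absNorm_algebraMap (𝓞 ℚ⟮(z : K)⟯) (𝓞 K)
      (Q.comap (algebraMap (𝓞 ℚ⟮(z : K)⟯) (𝓞 K)))
    rw [← hI', hIeq, hQ] at h0
    exact h0
  have h2 : d = 1 := by
    have h3 : d ≠ 0 := by
      intro h0
      rw [h0, pow_zero] at h1
      exact hq.one_lt.ne' h1
    by_contra h4
    have h5 : 2 ≤ d := by omega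
    rw [h1] at hq
    exact Nat.Prime.not_prime_pow h5 hq
  have h3 : (2 : ℕ) ^ Module.finrank ℚ K = 2 ^ Module.finrank ℚ ℚ⟮(z : K)⟯ := by
    have h4 := Ideal.absNorm_algebraMap (𝓞 ℚ⟮(z : K)⟯) (𝓞 K)
      (Ideal.span {((2 : ℕ) : 𝓞 ℚ⟮(z : K)⟯)})
    rw [Ideal.map_span, Set.image_singleton, map_natCast, Ideal.absNorm_span_natCast,
      Ideal.absNorm_span_natCast, RingOfIntegers.rank, RingOfIntegers.rank, ← hd, h2, pow_one] at h4
    convert h4
  have h4 : Module.finrank ℚ K = Module.finrank ℚ ℚ⟮(z : K)⟯ := Nat.pow_right_injective le_rfl h3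
  have h5 := Module.finrank_mul_finrank ℚ ℚ⟮(z : K)⟯ K
  rw [h4] at h5
  have h6 : 0 < Module.finrank ℚ ℚ⟮(z : K)⟯ := Module.finrank_pos
  have h7 : Module.finrank ℚ⟮(z : K)⟯ K = 1 := by
    have : Module.finrank ℚ ℚ⟮(z : K)⟯ * Module.finrank ℚ⟮(z : K)⟯ K =
        Module.finrank ℚ ℚ⟮(z : K)⟯ * 1 := by rw [h5, mul_one]
    exact Nat.eq_of_mul_eq_mul_left h6 this
  exact IntermediateField.finrank_eq_one_iff_eq_top.mp h7

/-- if the elements `v k` are in the ideal `I`, then the norm of `I` divides their determinant -/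
theorem norm_dvd_det {ι : Type} [Fintype ι] [DecidableEq ι] (b : Module.Basis ι ℤ (𝓞 K))
    (I : Ideal (𝓞 K)) (hI : I ≠ ⊥) (v : ι → 𝓞 K) (hv : ∀ k, v k ∈ I) :
    Ideal.absNorm I ∣ (Matrix.det (fun i k => b.repr (v k) i : Matrix ι ι ℤ)).natAbs := by
  let bI : Module.Basis ι ℤ I := I.selfBasis b hI
  have h1 := Ideal.natAbs_det_basis_change b I bI
  have h2 : (fun i k => b.repr (v k) i : Matrix ι ι ℤ) =
      b.toMatrix ((↑) ∘ bI : ι → 𝓞 K) *
        (Matrix.of fun j k => bI.repr ⟨v k, hv k⟩ j : Matrix ι ι ℤ) := by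
    ext i k
    rw [Matrix.mul_apply]
    simp only [Matrix.of_apply]
    have h3 : (v k : 𝓞 K) = ∑ j, bI.repr ⟨v k, hv k⟩ j • ((bI j : I) : 𝓞 K) := by
      have h4 := bI.sum_repr ⟨v k, hv k⟩
      have h5 := congrArg (fun x : I => (x : 𝓞 K)) h4
      have h6 : ∀ c : ι → ℤ, ((∑ j, c j • bI j : I) : 𝓞 K) = ∑ j, c j • ((bI j : I) : 𝓞 K) := by
        intro c
        rw [AddSubmonoidClass.coe_finsetSum]
        rfl
      exact h5.symm.trans (h6 _)
    have h6 : b.repr (v k) i = b.repr (∑ j, bI.repr ⟨v k, hv k⟩ j • ((bI j : I) : 𝓞 K)) i := by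
      rw [← h3]
    rw [h6, map_sum]
    simp only [map_smul, Finsupp.coe_finsetSum, Finset.sum_apply, Finsupp.coe_smul, Pi.smul_apply,
      smul_eq_mul, Module.Basis.toMatrix_apply, Function.comp_apply]
    exact Finset.sum_congr rfl fun j _ => mul_comm _ _
  rw [h2, Matrix.det_mul, Int.natAbs_mul]
  refine Dvd.dvd.mul_right ?_ _
  rw [← h1, Module.Basis.det_apply]

/-- the discriminant and the conjugates of a generator in an ideal -/
theorem disc_bound_ideal {n : ℕ} (hn : Module.finrank ℚ K = n) (z : 𝓞 K)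
    (hz : ℚ⟮(z : K)⟯ = ⊤) (I : Ideal (𝓞 K)) (hI : I ≠ ⊥) (a : ℕ) (ha0 : 0 < a)
    (ha : (a : 𝓞 K) ∈ I) (hzI : z ∈ I) {B : ℝ} (hw : ∀ w : InfinitePlace K, w (z : K) ≤ B) :
    ((Ideal.absNorm I : ℝ) ^ (n - 1)) ^ 2 * |(discr K : ℝ)| ≤
      (a : ℝ) ^ (n * (n - 1)) * (2 * B) ^ (n * (n - 1)) := by
  have hint : IsIntegral ℚ (z : K) := Algebra.IsIntegral.isIntegral _
  have htop : Algebra.adjoin ℚ {(z : K)} = ⊤ := by
    rw [← IntermediateField.adjoin_simple_toSubalgebra_of_isAlgebraic hint.isAlgebraic, hz]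
    rfl
  let pb : PowerBasis ℚ K := PowerBasis.ofAdjoinEqTop' hint htop
  have hgen : pb.gen = z := PowerBasis.ofAdjoinEqTop'_gen hint htop
  have hdim : pb.dim = n := by rw [← pb.finrank, hn]
  -- the integer matrix
  have hc : Fintype.card (Module.Free.ChooseBasisIndex ℤ (𝓞 K)) = pb.dim := by
    rw [← Module.finrank_eq_card_basis (RingOfIntegers.basis K), RingOfIntegers.rank, pb.finrank]
  let e : Module.Free.ChooseBasisIndex ℤ (𝓞 K) ≃ Fin pb.dim := Fintype.equivFinOfCardEq hc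
  let b : Module.Basis (Fin pb.dim) ℚ K := (integralBasis K).reindex e
  let b0 : Module.Basis (Fin pb.dim) ℤ (𝓞 K) := (RingOfIntegers.basis K).reindex e
  let M : Matrix (Fin pb.dim) (Fin pb.dim) ℤ := fun i j =>
    (RingOfIntegers.basis K).repr (z ^ (j : ℕ)) (e.symm i)
  have hM : b.toMatrix pb.basis = M.map (Int.castRingHom ℚ) := by
    ext i j
    rw [Module.Basis.toMatrix_apply, pb.coe_basis, hgen, Matrix.map_apply]
    change ((integralBasis K).reindex e).repr ((z : K) ^ (j : ℕ)) i = _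
    rw [Module.Basis.repr_reindex_apply]
    have h1 := integralBasis_repr_apply K (z ^ (j : ℕ)) (e.symm i)
    rw [map_pow] at h1
    exact h1
  have h1 : Algebra.discr ℚ pb.basis = (M.det : ℚ) ^ 2 * (discr K : ℚ) := by
    have h2 := Algebra.discr_of_matrix_vecMul (A := ℚ) (b : Fin pb.dim → K)
      (b.toMatrix pb.basis)
    rw [Module.Basis.toMatrix_map_vecMul] at h2
    rw [h2, hM]
    have h3 : (M.map (Int.castRingHom ℚ)).det = (M.det : ℚ) := by
      have := (RingHom.map_det (Int.castRingHom ℚ) M)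
      rw [RingHom.mapMatrix_apply] at this
      rw [← this]
      rfl
    have h4 : Algebra.discr ℚ (b : Fin pb.dim → K) = (discr K : ℚ) := by
      rw [coe_discr]
      have := Algebra.discr_reindex ℚ (integralBasis K) e
      rw [← this]
      congr 1
      exact Module.Basis.coe_reindex _ _
    rw [h3, h4]
  have hne : M.det ≠ 0 := by
    intro h0
    have h2 := Algebra.discr_not_zero_of_basis ℚ pb.basis
    rw [h1, h0] at h2
    simp at h2
  -- divisibility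
  have hdvd : Ideal.absNorm I ^ (pb.dim - 1) ∣
      (M.det * ∏ j : Fin pb.dim, (a : ℤ) ^ (pb.dim - 1 - (j : ℕ))).natAbs := by
    have h2 := norm_dvd_det b0 (I ^ (pb.dim - 1)) (pow_ne_zero _ hI)
      (fun j : Fin pb.dim => z ^ (j : ℕ) * (a : 𝓞 K) ^ (pb.dim - 1 - (j : ℕ))) (by
        intro j
        have h3 : pb.dim - 1 = (j : ℕ) + (pb.dim - 1 - (j : ℕ)) := by
          have := j.2
          omega
        have h4 : I ^ (pb.dim - 1) = I ^ (j : ℕ) * I ^ (pb.dim - 1 - (j : ℕ)) := by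
          rw [← pow_add, ← h3]
        rw [h4]
        exact Ideal.mul_mem_mul (Ideal.pow_mem_pow hzI _) (Ideal.pow_mem_pow ha _))
    rw [map_pow] at h2
    refine h2.trans (dvd_of_eq ?_)
    congr 1
    have h4 : (fun i k : Fin pb.dim => b0.repr (z ^ (k : ℕ) * (a : 𝓞 K) ^ (pb.dim - 1 - (k : ℕ))) i :
        Matrix (Fin pb.dim) (Fin pb.dim) ℤ) =
        M * Matrix.diagonal (fun j : Fin pb.dim => (a : ℤ) ^ (pb.dim - 1 - (j : ℕ))) := by
      ext i k
      rw [Matrix.mul_diagonal]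
      have h5 : z ^ (k : ℕ) * (a : 𝓞 K) ^ (pb.dim - 1 - (k : ℕ)) =
          ((a : ℤ) ^ (pb.dim - 1 - (k : ℕ))) • z ^ (k : ℕ) := by
        rw [zsmul_eq_mul]
        push_cast
        ring
      change b0.repr (z ^ (k : ℕ) * (a : 𝓞 K) ^ (pb.dim - 1 - (k : ℕ))) i = _
      rw [h5, map_smul, Finsupp.smul_apply, smul_eq_mul, mul_comm]
      congr 1
    rw [h4, Matrix.det_mul, Matrix.det_diagonal]
  generalize M.det = m at h1 hne hdvd
  have hprod : (∏ j : Fin pb.dim, (a : ℤ) ^ (pb.dim - 1 - (j : ℕ))) ^ 2 =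
      (a : ℤ) ^ (n * (n - 1)) := by
    rw [Finset.prod_pow_eq_pow_sum, ← pow_mul]
    congr 1
    rw [Fin.sum_univ_eq_sum_range (fun i => pb.dim - 1 - i) pb.dim,
      Finset.sum_range_reflect (fun i => i) pb.dim, Finset.sum_range_id_mul_two, hdim]
  have hnormle : ((Ideal.absNorm I : ℝ) ^ (n - 1)) ^ 2 ≤ (m : ℝ) ^ 2 * (a : ℝ) ^ (n * (n - 1)) := by
    set c : ℤ := ∏ j : Fin pb.dim, (a : ℤ) ^ (pb.dim - 1 - (j : ℕ)) with hc'
    have hc0 : c ≠ 0 := by
      rw [hc']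
      refine Finset.prod_ne_zero_iff.mpr fun j _ => pow_ne_zero _ ?_
      exact_mod_cast ha0.ne'
    have h2 : Ideal.absNorm I ^ (n - 1) ≤ (m * c).natAbs := by
      rw [hdim] at hdvd
      exact Nat.le_of_dvd (Int.natAbs_pos.mpr (mul_ne_zero hne hc0)) hdvd
    have h3 : ((Ideal.absNorm I : ℝ) ^ (n - 1)) ≤ |((m * c : ℤ) : ℝ)| := by
      have h4 : (((Ideal.absNorm I) ^ (n - 1) : ℕ) : ℝ) ≤ (((m * c).natAbs : ℕ) : ℝ) := by
        exact_mod_cast h2
      rw [Nat.cast_natAbs] at h4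
      push_cast at h4 ⊢
      exact h4
    calc ((Ideal.absNorm I : ℝ) ^ (n - 1)) ^ 2 ≤ |((m * c : ℤ) : ℝ)| ^ 2 :=
          pow_le_pow_left₀ (by positivity) h3 2
      _ = (m : ℝ) ^ 2 * ((c ^ 2 : ℤ) : ℝ) := by
          rw [sq_abs]; push_cast; ring
      _ = _ := by rw [hprod]; push_cast; ring
  have h2 : (m : ℝ) ^ 2 * |(discr K : ℝ)| = ‖algebraMap ℚ ℂ (Algebra.discr ℚ pb.basis)‖ := by
    rw [h1]
    have e1 : algebraMap ℚ ℂ ((m : ℚ) ^ 2 * (discr K : ℚ)) =
        (((m : ℝ) ^ 2 * (discr K : ℝ) : ℝ) : ℂ) := by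
      rw [eq_ratCast]
      push_cast
      rfl
    rw [e1, Complex.norm_real, Real.norm_eq_abs, abs_mul, abs_pow, sq_abs]
  have h3 : ‖algebraMap ℚ ℂ (Algebra.discr ℚ pb.basis)‖ ≤ (2 * B) ^ (n * (n - 1)) := by
    have hcard : Fintype.card (K →ₐ[ℚ] ℂ) = pb.dim := by
      rw [AlgHom.card, pb.finrank]
    let f : Fin pb.dim ≃ (K →ₐ[ℚ] ℂ) := (Fintype.equivFinOfCardEq hcard).symm
    rw [Algebra.discr_powerBasis_eq_prod ℚ ℂ pb f, norm_prod]
    have hconj : ∀ i, ‖f i pb.gen‖ ≤ B := by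
      intro i
      rw [hgen]
      have := hw (InfinitePlace.mk ((f i : K →ₐ[ℚ] ℂ) : K →+* ℂ))
      rw [InfinitePlace.apply] at this
      exact this
    calc ∏ i : Fin pb.dim, ‖∏ j ∈ Finset.Ioi i, (f j pb.gen - f i pb.gen) ^ 2‖
        ≤ ∏ i : Fin pb.dim, (2 * B) ^ (2 * (Finset.Ioi i).card) := by
          refine Finset.prod_le_prod (fun i _ => norm_nonneg _) fun i _ => ?_
          rw [norm_prod]
          calc ∏ j ∈ Finset.Ioi i, ‖(f j pb.gen - f i pb.gen) ^ 2‖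
              ≤ ∏ j ∈ Finset.Ioi i, (2 * B) ^ 2 := by
                refine Finset.prod_le_prod (fun j _ => norm_nonneg _) fun j _ => ?_
                rw [_root_.norm_pow]
                have h3 : ‖f j pb.gen - f i pb.gen‖ ≤ 2 * B := by
                  refine (norm_sub_le _ _).trans ?_
                  linarith [hconj i, hconj j]
                exact pow_le_pow_left₀ (norm_nonneg _) h3 2
            _ = (2 * B) ^ (2 * (Finset.Ioi i).card) := by
                rw [Finset.prod_const, ← pow_mul]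
      _ = (2 * B) ^ (n * (n - 1)) := by
          rw [Finset.prod_pow_eq_pow_sum, sum_card_Ioi, hdim]
  calc ((Ideal.absNorm I : ℝ) ^ (n - 1)) ^ 2 * |(discr K : ℝ)|
      ≤ ((m : ℝ) ^ 2 * (a : ℝ) ^ (n * (n - 1))) * |(discr K : ℝ)| := by gcongr
    _ = (a : ℝ) ^ (n * (n - 1)) * ((m : ℝ) ^ 2 * |(discr K : ℝ)|) := by ring
    _ ≤ _ := by rw [h2]; gcongr

end Pool.Agent.V7H55.LT
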