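import Pool.Agent.V7H55.LT.Cheb

/-! Fields forced by a subfield of the normal closure: permutations without fixed points. -/

set_option autoImplicit false

namespace Pool.Agent.V7H55.LT

open NumberField Filter Topology Finset Pool.Agent.W401.Cheb IntermediateField
open scoped Classical

section
variable (K M : Type) [Field K] [NumberField K] [Field M] [NumberField M]

/-- the action on the embeddings -/
noncomputable def act : Gal(M/ℚ) →* Equiv.Perm (K →ₐ[ℚ] M) where
  toFun σ :=
    { toFun := fun τ => (σ : M →ₐ[ℚ] M).comp τ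
      invFun := fun τ => ((σ⁻¹ : Gal(M/ℚ)) : M →ₐ[ℚ] M).comp τ
      left_inv := fun τ => by
        ext x
        change (σ⁻¹ * σ) (τ x) = _
        rw [inv_mul_cancel]
        rfl
      right_inv := fun τ => by
        ext x
        change (σ * σ⁻¹) (τ x) = _
        rw [mul_inv_cancel]
        rfl }
  map_one' := by
    ext τ x
    rfl
  map_mul' σ ρ := by
    ext τ x
    rfl

theorem act_apply (σ : Gal(M/ℚ)) (τ : K →ₐ[ℚ] M) (x : K) : act K M σ τ x = σ (τ x) := rfl

theorem mem_fixed {M : Type} [Field M] [NumberField M] (σ : Gal(M/ℚ)) (y : M) :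
    y ∈ IntermediateField.fixedField (Subgroup.zpowers σ) ↔ σ y = y := by
  rw [IntermediateField.mem_fixedField_iff]
  constructor
  · intro h1
    exact h1 σ (Subgroup.mem_zpowers σ)
  · intro h1 ρ hρ
    have h2 : σ ∈ MulAction.stabilizer Gal(M/ℚ) y := h1
    have h3 : Subgroup.zpowers σ ≤ MulAction.stabilizer Gal(M/ℚ) y := by
      rw [Subgroup.zpowers_le]; exact h2
    exact h3 hρ

variable [hM : IsNormalClosure ℚ K M]
include hM

theorem isGalois_nc : IsGalois ℚ M := by
  have : Normal ℚ M := IsNormalClosure.normal (K := K)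
  exact {}

theorem card_hom : Fintype.card (K →ₐ[ℚ] M) = Module.finrank ℚ K :=
  AlgHom.card_of_splits ℚ K M fun x => IsNormalClosure.splits x

variable {K M} in
/-- an automorphism that fixes all conjugates is trivial -/
theorem eq_one_of_act {σ : Gal(M/ℚ)} (h : act K M σ = 1) : σ = 1 := by
  have htop := ((Algebra.IsAlgebraic.isNormalClosure_iff (F := ℚ) (K := K) (L := M)).mp hM).2
  have hle : IntermediateField.normalClosure ℚ K M ≤
      IntermediateField.fixedField (Subgroup.zpowers σ) := by
    rw [normalClosure_def]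
    refine iSup_le fun τ => ?_
    rintro _ ⟨x, rfl⟩
    have h1 : act K M σ τ x = τ x := by rw [h]; rfl
    exact (mem_fixed σ _).2 h1
  rw [htop, top_le_iff] at hle
  ext y
  have : y ∈ IntermediateField.fixedField (Subgroup.zpowers σ) := by
    rw [hle]; exact IntermediateField.mem_top
  rw [(mem_fixed σ y).1 this]
  rfl

end

/-- permutations without fixed points have no power of order `r` -/
theorem forces_of_order {F : Type} [Field F] [NumberField F] (g : Gal(F/ℚ))
    (K M : Type) [Field K] [NumberField K] [Field M] [NumberField M] [IsNormalClosure ℚ K M]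
    (i : F →ₐ[ℚ] M)
    (h : ∀ σ : Gal(M/ℚ), (∀ τ : K →ₐ[ℚ] M, act K M σ τ ≠ τ) →
      ¬ orderOf g ∣ orderOf (act K M σ)) : Forces F g K := by
  refine ⟨M, inferInstance, inferInstance, isGalois_nc K M, i, ?_⟩
  intro σ hσ
  by_contra hcon
  push Not at hcon
  refine h σ ?_ ?_
  · intro τ hτ
    obtain ⟨x, hx⟩ := hcon τ
    apply hx
    rw [← act_apply, hτ]
  · rw [orderOf_dvd_iff_pow_eq_one]
    have h1 : act K M (σ ^ orderOf (act K M σ)) = 1 := by
      rw [map_pow, pow_orderOf_eq_one]
    have h2 := eq_one_of_act h1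
    have h3 : ∀ (m : ℕ) (x : F), (σ ^ m) (i x) = i ((g ^ m) x) := by
      intro m
      induction m with
      | zero => intro x; rfl
      | succ m ih =>
        intro x
        rw [pow_succ, pow_succ]
        change (σ ^ m) (σ (i x)) = i ((g ^ m) (g x))
        rw [hσ, ih]
    ext x
    apply i.injective
    have h4 := h3 (orderOf (act K M σ)) x
    rw [h2] at h4
    exact h4.symm

/-- **a permutation of `p + 1` letters without fixed points has order prime to `p`** -/
theorem perm_order {X : Type} [Fintype X] {p : ℕ} (hp : p.Prime)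
    (hX : Fintype.card X = p + 1) (π : Equiv.Perm X) (h : ∀ x, π x ≠ x) : ¬ p ∣ orderOf π := by
  intro hdvd
  rw [← Equiv.Perm.lcm_cycleType] at hdvd
  have hsupp : π.support = Finset.univ := by
    ext x
    simp [Equiv.Perm.mem_support, h x]
  have hsum : π.cycleType.sum = p + 1 := by
    rw [Equiv.Perm.sum_cycleType, hsupp, Finset.card_univ, hX]
  have hex : ∀ s : Multiset ℕ, p ∣ s.lcm → ∃ c ∈ s, p ∣ c := by
    intro s
    induction s using Multiset.induction_on with
    | empty =>
      intro h0
      rw [Multiset.lcm_zero] at h0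
      exact absurd (Nat.dvd_one.mp h0) hp.one_lt.ne'
    | cons a s ih =>
      intro h0
      rw [Multiset.lcm_cons] at h0
      have h1 : p ∣ a * s.lcm := h0.trans (lcm_dvd (dvd_mul_right _ _) (dvd_mul_left _ _))
      rcases hp.dvd_mul.mp h1 with h2 | h2
      · exact ⟨a, Multiset.mem_cons_self _ _, h2⟩
      · obtain ⟨c, hc, hpc⟩ := ih h2
        exact ⟨c, Multiset.mem_cons_of_mem hc, hpc⟩
  obtain ⟨c, hc, hpc⟩ := hex _ hdvd
  obtain ⟨s, hs⟩ := Multiset.exists_cons_of_mem hc
  have hc2 : 2 ≤ c := Equiv.Perm.two_le_of_mem_cycleType hc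
  have hsum' : c + s.sum = p + 1 := by
    rw [← hsum, hs, Multiset.sum_cons]
  have hcp : c = p := by
    obtain ⟨m, rfl⟩ := hpc
    have hp2 := hp.two_le
    rcases Nat.lt_or_ge m 2 with hm | hm
    · have : m ≠ 0 := by rintro rfl; omega
      have : m = 1 := by omega
      rw [this, mul_one]
    · have : p * 2 ≤ p * m := Nat.mul_le_mul_left p hm
      omega
  have hs1 : s.sum = 1 := by omega
  have hs2 : s ≠ 0 := by
    rintro rfl
    simp at hs1
  obtain ⟨d, hd⟩ := Multiset.exists_mem_of_ne_zero hs2
  have hd2 : 2 ≤ d := Equiv.Perm.two_le_of_mem_cycleType (by rw [hs]; exact Multiset.mem_cons_of_mem hd)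
  have hd3 : d ≤ s.sum := Multiset.single_le_sum (fun _ _ => Nat.zero_le _) d hd
  omega

/-- a cyclic group of permutations that acts freely has order dividing the degree -/
theorem perm_free {X : Type} [Fintype X] (π : Equiv.Perm X)
    (h : ∀ k : ℕ, ∀ x, (π ^ k) x = x → π ^ k = 1) : orderOf π ∣ Fintype.card X := by
  have h1 := MulAction.card_eq_sum_card_group_div_card_stabilizer (Subgroup.zpowers π) X
  rw [h1]
  refine Finset.dvd_sum fun ω _ => ?_
  have h2 : ∀ x : X, MulAction.stabilizer (Subgroup.zpowers π) x = ⊥ := by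
    intro x
    rw [Subgroup.eq_bot_iff_forall]
    rintro ⟨ρ, hρ⟩ hx
    have hx' : ρ x = x := hx
    obtain ⟨k, hk⟩ := (Submonoid.mem_powers_iff _ _).mp (mem_powers_iff_mem_zpowers.mpr hρ)
    have h3 : ρ = 1 := by
      rw [← hk] at hx' ⊢
      exact h k x hx'
    exact Subtype.ext h3
  have h3 : Fintype.card (MulAction.stabilizer (Subgroup.zpowers π) (Quotient.out ω)) = 1 := by
    rw [← Nat.card_eq_fintype_card, h2, Nat.card_eq_fintype_card]
    simp
  rw [h3, Nat.div_one, Fintype.card_zpowers]

/-- **Fields of degree `p + 1`.** -/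
theorem forces_succ {F : Type} [Field F] [NumberField F] {p : ℕ} (hp : p.Prime)
    (g : Gal(F/ℚ)) (hg : orderOf g = p) (K M : Type) [Field K] [NumberField K] [Field M]
    [NumberField M] [IsNormalClosure ℚ K M]
    (hK : Module.finrank ℚ K = p + 1) (i : F →ₐ[ℚ] M) : Forces F g K := by
  refine forces_of_order g K M i fun σ hσ => ?_
  rw [hg]
  exact perm_order hp (by rw [card_hom, hK]) _ hσ

/-- **Frobenius fields.** -/
theorem forces_frob {F : Type} [Field F] [NumberField F]
    (g : Gal(F/ℚ)) (K M : Type) [Field K] [NumberField K] [Field M]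
    [NumberField M] [IsNormalClosure ℚ K M]
    (hg : ¬ orderOf g ∣ Module.finrank ℚ K)
    (hK : ∀ τ τ' : K →ₐ[ℚ] M, τ ≠ τ' → τ.fieldRange ⊔ τ'.fieldRange = ⊤)
    (i : F →ₐ[ℚ] M) : Forces F g K := by
  refine forces_of_order g K M i fun σ hσ hdvd => hg (hdvd.trans ?_)
  rw [← card_hom K M]
  refine perm_free _ ?_
  intro k τ hτ
  have h1 : act K M (σ ^ k) τ = τ := by rw [map_pow]; exact hτ
  have h2 : act K M (σ ^ k) (act K M σ τ) = act K M σ τ := by
    have : act K M (σ ^ k) (act K M σ τ) = act K M σ (act K M (σ ^ k) τ) := by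
      rw [← Equiv.Perm.mul_apply, ← Equiv.Perm.mul_apply, ← map_mul, ← map_mul,
        (Commute.pow_self σ k).eq]
    rw [this, h1]
  have h3 := hK τ (act K M σ τ) (fun h => hσ τ h.symm)
  have h4 : τ.fieldRange ⊔ (act K M σ τ).fieldRange ≤
      IntermediateField.fixedField (Subgroup.zpowers (σ ^ k)) := by
    refine sup_le ?_ ?_
    · rintro _ ⟨x, rfl⟩
      refine (mem_fixed _ _).2 ?_
      have := congrArg (fun f : K →ₐ[ℚ] M => f x) h1
      exact this
    · rintro _ ⟨x, rfl⟩
      refine (mem_fixed _ _).2 ?_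
      have := congrArg (fun f : K →ₐ[ℚ] M => f x) h2
      exact this
  rw [h3, top_le_iff] at h4
  have h5 : σ ^ k = 1 := by
    ext y
    have : y ∈ IntermediateField.fixedField (Subgroup.zpowers (σ ^ k)) := by
      rw [h4]; exact IntermediateField.mem_top
    rw [(mem_fixed _ y).1 this]
    rfl
  rw [← map_pow, h5, map_one]

end Pool.Agent.V7H55.LT
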