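import Pool.Agent.V7H55.LT.Perm

/-! Quadratic extensions of a fixed field with a fixed norm of the radicand. -/

set_option autoImplicit false

namespace Pool.Agent.V7H55.LT

open NumberField Finset Polynomial
open scoped Classical

/-- two number fields are contained in a Galois extension of `ℚ` -/
theorem exists_common (F K : Type) [Field F] [NumberField F] [Field K] [NumberField K] :
    ∃ (M : Type) (_ : Field M) (_ : NumberField M), IsGalois ℚ M ∧
      Nonempty (F →ₐ[ℚ] M) ∧ Nonempty (K →ₐ[ℚ] M) := by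
  let pF := Field.powerBasisOfFiniteOfSeparable ℚ F
  let pK := Field.powerBasisOfFiniteOfSeparable ℚ K
  let f : ℚ[X] := minpoly ℚ pF.gen * minpoly ℚ pK.gen
  have hF0 : minpoly ℚ pF.gen ≠ 0 := minpoly.ne_zero pF.isIntegral_gen
  have hK0 : minpoly ℚ pK.gen ≠ 0 := minpoly.ne_zero pK.isIntegral_gen
  have hf0 : f ≠ 0 := mul_ne_zero hF0 hK0
  let M := SplittingField f
  have hNF : NumberField M :=
    { to_charZero := inferInstance
      to_finiteDimensional := by
        have : FiniteDimensional ℚ (SplittingField f) := inferInstance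
        convert this }
  have hs : Splits (f.map (algebraMap ℚ M)) := SplittingField.splits f
  have hgal : IsGalois ℚ M := by
    have h1 := @Normal.of_isSplittingField ℚ _ (SplittingField f) _ _ f
      (Polynomial.IsSplittingField.splittingField f)
    have h2 : Normal ℚ M := by
      convert h1
    exact {}
  have hfM : f.map (algebraMap ℚ M) ≠ 0 := (Polynomial.map_ne_zero_iff (algebraMap ℚ M).injective).2 hf0
  have hsF : Splits ((minpoly ℚ pF.gen).map (algebraMap ℚ M)) :=
    hs.of_dvd hfM (Polynomial.map_dvd _ (dvd_mul_right _ _))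
  have hsK : Splits ((minpoly ℚ pK.gen).map (algebraMap ℚ M)) :=
    hs.of_dvd hfM (Polynomial.map_dvd _ (dvd_mul_left _ _))
  refine ⟨M, inferInstance, inferInstance, hgal, ?_, ?_⟩
  · obtain ⟨x, hx⟩ := hsF.exists_eval_eq_zero (by
      rw [degree_map]; exact (minpoly.degree_pos pF.isIntegral_gen).ne')
    exact ⟨pF.lift x (by rw [aeval_def, eval₂_eq_eval_map]; exact hx)⟩
  · obtain ⟨x, hx⟩ := hsK.exists_eval_eq_zero (by
      rw [degree_map]; exact (minpoly.degree_pos pK.isIntegral_gen).ne')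
    exact ⟨pK.lift x (by rw [aeval_def, eval₂_eq_eval_map]; exact hx)⟩

/-- two homomorphisms to a Galois extension differ by an automorphism -/
theorem hom_conj {K M : Type} [Field K] [NumberField K] [Field M] [NumberField M] [IsGalois ℚ M]
    (τ τ' : K →ₐ[ℚ] M) : ∃ σ : Gal(M/ℚ), ∀ x, τ' x = σ (τ x) := by
  let : Algebra K M := τ.toRingHom.toAlgebra
  have : IsScalarTower ℚ K M := IsScalarTower.of_algebraMap_eq fun x => (τ.commutes x).symm
  have hi : ∀ x : K, algebraMap K M x = τ x := fun _ => rfl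
  let φ : M →ₐ[ℚ] M := AlgHom.liftNormal τ' M
  have hφ : ∀ x : K, φ (τ x) = τ' x := fun x => AlgHom.liftNormal_commutes τ' M x
  exact ⟨AlgEquiv.ofBijective φ (Algebra.IsAlgebraic.algHom_bijective φ), fun x => (hφ x).symm⟩

/-- the norm as a product over the embeddings in a Galois extension -/
theorem norm_eq_prod {k M : Type} [Field k] [NumberField k] [Field M] [NumberField M]
    (hk : Fintype.card (k →ₐ[ℚ] M) = Module.finrank ℚ k) (a : k) :
    algebraMap ℚ M (Algebra.norm ℚ a) = ∏ ρ : k →ₐ[ℚ] M, ρ a := by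
  let ι : M →ₐ[ℚ] AlgebraicClosure M := (algebraMap M (AlgebraicClosure M)).toRatAlgHom
  have hinj : Function.Injective (fun ρ : k →ₐ[ℚ] M => ι.comp ρ) := by
    intro ρ ρ' h
    ext x
    apply (ι : M →+* AlgebraicClosure M).injective
    exact congrArg (fun f : k →ₐ[ℚ] AlgebraicClosure M => f x) h
  have hbij : Function.Bijective (fun ρ : k →ₐ[ℚ] M => ι.comp ρ) := by
    rw [Fintype.bijective_iff_injective_and_card]
    refine ⟨hinj, ?_⟩
    rw [hk, AlgHom.card]
  apply (ι : M →+* AlgebraicClosure M).injective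
  have h1 := Algebra.norm_eq_prod_embeddings ℚ (AlgebraicClosure M) a
  change ι (algebraMap ℚ M (Algebra.norm ℚ a)) = ι (∏ ρ : k →ₐ[ℚ] M, ρ a)
  rw [AlgHom.commutes, h1, map_prod]
  exact (Fintype.prod_bijective _ hbij _ _ fun ρ => rfl).symm

/-- **Quadratic extensions `K = k(√α)` of a fixed field `k`**: `g` is trivial on the conjugates of
`k`, and acts on the square root of the norm of `α` as `(-1) ^ (m + 1)`, `m = [k : ℚ]`. -/
theorem forces_quad {F k K : Type} [Field F] [NumberField F] [IsGalois ℚ F] (g : Gal(F/ℚ))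
    [Field k] [NumberField k] [Field K] [NumberField K] [Algebra k K] (β : K) (α : k) (s : F)
    (hkF : Nonempty (k →ₐ[ℚ] F)) (hg : ∀ (τ : k →ₐ[ℚ] F) (x : k), g (τ x) = τ x)
    (hβ : β ^ 2 = algebraMap k K α) (htop : IntermediateField.adjoin k {β} = ⊤)
    (hs : s ^ 2 = algebraMap ℚ F (Algebra.norm ℚ α))
    (hgs : g s = (-1) ^ (Module.finrank ℚ k + 1) * s) : Forces F g K := by
  obtain ⟨M, _, _, hM, ⟨i⟩, ⟨κ⟩⟩ := exists_common F K
  refine ⟨M, inferInstance, inferInstance, hM, i, ?_⟩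
  intro σ hσ
  have hkM : ∀ E : Type, ∀ [Field E] [NumberField E] [IsGalois ℚ E], Nonempty (k →ₐ[ℚ] E) →
      Fintype.card (k →ₐ[ℚ] E) = Module.finrank ℚ k := by
    intro E _ _ _ ⟨j⟩
    refine AlgHom.card_of_splits ℚ k E fun x => ?_
    rw [← minpoly.algHom_eq j j.injective x]
    exact Normal.splits inferInstance (j x)
  have hcF := hkM F hkF
  let κ' : k →ₐ[ℚ] M := κ.comp (IsScalarTower.toAlgHom ℚ k K)
  have hcM := hkM M ⟨κ'⟩
  -- all embeddings of `k` factor through `F`
  have hinj : Function.Injective (fun τ : k →ₐ[ℚ] F => i.comp τ) := by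
    intro ρ ρ' h
    ext x
    apply i.injective
    exact congrArg (fun f : k →ₐ[ℚ] M => f x) h
  have hbij : Function.Bijective (fun τ : k →ₐ[ℚ] F => i.comp τ) := by
    rw [Fintype.bijective_iff_injective_and_card]
    exact ⟨hinj, by rw [hcF, hcM]⟩
  have hfix : ∀ (ρ : k →ₐ[ℚ] M) (x : k), σ (ρ x) = ρ x := by
    intro ρ x
    obtain ⟨τ, rfl⟩ := hbij.2 ρ
    change σ (i (τ x)) = i (τ x)
    rw [hσ, hg]
  have hext : ∀ ρ : k →ₐ[ℚ] M, ∃ τ : K →ₐ[ℚ] M, ∀ x : k, τ (algebraMap k K x) = ρ x := by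
    intro ρ
    obtain ⟨ω, hω⟩ := hom_conj κ' ρ
    exact ⟨(ω : M →ₐ[ℚ] M).comp κ, fun x => (hω x).symm⟩
  choose T hT using hext
  by_contra hcon
  push Not at hcon
  have hne : ∀ ρ : k →ₐ[ℚ] M, σ (T ρ β) ≠ T ρ β := by
    intro ρ hρ
    obtain ⟨x, hx⟩ := hcon (T ρ)
    apply hx
    let S : IntermediateField k K :=
      { carrier := {y | σ (T ρ y) = T ρ y}
        mul_mem' := fun {a b} ha hb => by
          simp only [Set.mem_ofPred_eq] at *
          rw [map_mul, map_mul, ha, hb]
        add_mem' := fun {a b} ha hb => by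
          simp only [Set.mem_ofPred_eq] at *
          rw [map_add, map_add, ha, hb]
        algebraMap_mem' := fun y => by
          simp only [Set.mem_ofPred_eq]
          rw [hT, hfix]
        inv_mem' := fun a ha => by
          simp only [Set.mem_ofPred_eq] at *
          rw [map_inv₀, map_inv₀, ha] }
    have hS : IntermediateField.adjoin k {β} ≤ S := by
      rw [IntermediateField.adjoin_le_iff, Set.singleton_subset_iff]
      exact hρ
    rw [htop, top_le_iff] at hS
    have : x ∈ S := by rw [hS]; exact IntermediateField.mem_top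
    exact this
  have hsq : ∀ ρ : k →ₐ[ℚ] M, (T ρ β) ^ 2 = ρ α := by
    intro ρ
    rw [← map_pow, hβ, hT]
  have hneg : ∀ ρ : k →ₐ[ℚ] M, σ (T ρ β) = -T ρ β := by
    intro ρ
    have h1 : σ (T ρ β) ^ 2 = (T ρ β) ^ 2 := by
      rw [← map_pow, hsq, hfix]
    rcases sq_eq_sq_iff_eq_or_eq_neg.mp h1 with h2 | h2
    · exact absurd h2 (hne ρ)
    · exact h2
  have hnz : ∀ ρ : k →ₐ[ℚ] M, T ρ β ≠ 0 := by
    intro ρ h0
    apply hne ρ
    rw [h0, map_zero]
  set P : M := ∏ ρ : k →ₐ[ℚ] M, T ρ β with hP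
  have hP0 : P ≠ 0 := Finset.prod_ne_zero_iff.mpr fun ρ _ => hnz ρ
  have hP2 : P ^ 2 = (i s) ^ 2 := by
    rw [hP, ← Finset.prod_pow, ← map_pow, hs, AlgHom.commutes, norm_eq_prod hcM]
    exact Finset.prod_congr rfl fun ρ _ => hsq ρ
  have hσP : σ P = (-1) ^ Module.finrank ℚ k * P := by
    rw [hP, map_prod]
    simp_rw [hneg]
    rw [Finset.prod_neg, Finset.card_univ, hcM]
  have hσs : σ (i s) = (-1) ^ (Module.finrank ℚ k + 1) * i s := by
    rw [hσ, hgs, map_mul, map_pow, map_neg, map_one]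
  have hσP' : σ P = (-1) ^ (Module.finrank ℚ k + 1) * P := by
    rcases sq_eq_sq_iff_eq_or_eq_neg.mp hP2 with h2 | h2
    · rw [h2, hσs]
    · rw [h2, map_neg, hσs, mul_neg]
  rw [hσP', pow_succ] at hσP
  have h3 : (-1 : M) ^ Module.finrank ℚ k ≠ 0 := pow_ne_zero _ (by norm_num)
  have h4 : (-1 : M) ^ Module.finrank ℚ k * P ≠ 0 := mul_ne_zero h3 hP0
  have h5 : (2 : M) * ((-1 : M) ^ Module.finrank ℚ k * P) = 0 := by linear_combination -hσP
  rcases mul_eq_zero.mp h5 with h6 | h6
  · norm_num at h6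
  · exact h4 h6

end Pool.Agent.V7H55.LT
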