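import Pool.Agent.V7H55.LT.Gen

/-! Torsion in class groups and products of primes of degree one. -/

set_option autoImplicit false

namespace Pool.Agent.V7H55.LT

open NumberField Finset Pool.Agent.TH847.LS Pool.Agent.TH847.LG NumberField.InfinitePlace
  IntermediateField
open scoped Classical nonZeroDivisors

variable {K : Type} [Field K] [NumberField K]

/-- the discriminant bound for a generator of `P_b^l J_a^l` -/
theorem disc_le_of_gen {n : ℕ} (hn : Module.finrank ℚ K = n) (hn2 : 2 ≤ n) {l : ℕ}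
    (z : 𝓞 K) (hz : ℚ⟮(z : K)⟯ = ⊤) (P J Q : Ideal (𝓞 K)) {a b : ℕ} (ha : 0 < a)
    (hPJ : P * J = Ideal.span {((a : ℕ) : 𝓞 K)}) (hJ : Ideal.absNorm J = a ^ (n - 1))
    (hspan : Ideal.span {z} = Q ^ l * J ^ l)
    (hw : ∀ w : InfinitePlace K, w (z : K) ^ n ≤ ((150 : ℝ) ^ l) ^ n *
        (((b * a ^ (n - 1)) ^ l : ℕ) : ℝ)) :
    |(discr K : ℝ)| ≤ (2 ^ n * ((150 : ℝ) ^ l) ^ n * ((a * b : ℕ) : ℝ) ^ l) ^ (n - 1) := by
  have hn0 : 0 < n := by omega
  have hnr : (0 : ℝ) < n := by exact_mod_cast hn0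
  have har : (0 : ℝ) < a := by exact_mod_cast ha
  set X : ℝ := ((150 : ℝ) ^ l) ^ n * (((b * a ^ (n - 1)) ^ l : ℕ) : ℝ) with hX
  have hX0 : 0 ≤ X := by positivity
  set B : ℝ := X ^ (1 / (n : ℝ)) with hB
  have hB0 : 0 ≤ B := Real.rpow_nonneg hX0 _
  have hBn : B ^ n = X := by
    rw [hB, ← Real.rpow_natCast, ← Real.rpow_mul hX0, one_div, inv_mul_cancel₀ hnr.ne',
      Real.rpow_one]
  have hwB : ∀ w : InfinitePlace K, w (z : K) ≤ B := by
    intro w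
    have h1 : w (z : K) ^ n ≤ B ^ n := by rw [hBn]; exact hw w
    exact le_of_pow_le_pow_left₀ hn0.ne' hB0 h1
  have hJ0 : J ≠ ⊥ := by
    rintro rfl
    rw [Ideal.absNorm_bot] at hJ
    exact (pow_pos ha (n - 1)).ne hJ
  have haJ : ((a ^ l : ℕ) : 𝓞 K) ∈ J ^ l := by
    push_cast
    refine Ideal.pow_mem_pow ?_ l
    have h1 : Ideal.span {((a : ℕ) : 𝓞 K)} ≤ J := by
      rw [← hPJ]; exact Ideal.mul_le_right
    exact h1 (Ideal.mem_span_singleton_self _)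
  have hzJ : z ∈ J ^ l := by
    have h1 : Ideal.span {z} ≤ J ^ l := by
      rw [hspan]; exact Ideal.mul_le_right
    exact h1 (Ideal.mem_span_singleton_self _)
  have key := disc_bound_ideal hn z hz (J ^ l) (pow_ne_zero _ hJ0) (a ^ l) (pow_pos ha l) haJ hzJ hwB
  rw [map_pow, hJ] at key
  -- rewrite everything in powers of `a`
  obtain ⟨m, rfl⟩ : ∃ m, n = m + 1 := ⟨n - 1, by omega⟩
  simp only [Nat.add_sub_cancel] at key ⊢ hX
  have e1 : (2 * B) ^ ((m + 1) * m) = (2 ^ (m + 1) * X) ^ m := by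
    rw [pow_mul, mul_pow, hBn]
  rw [e1, hX] at key
  push_cast at key ⊢
  have hpos : (0 : ℝ) < ((a : ℝ) ^ l) ^ (m * (2 * m)) := by positivity
  have e2 : ((((a : ℝ) ^ m) ^ l) ^ m) ^ 2 = ((a : ℝ) ^ l) ^ (m * (2 * m)) := by
    rw [← pow_mul, ← pow_mul, ← pow_mul, ← pow_mul]
    congr 1
    ring
  have e3 : (((a : ℝ) ^ l) ^ ((m + 1) * m)) * (2 ^ (m + 1) * ((150 ^ l) ^ (m + 1) *
      ((b : ℝ) * (a : ℝ) ^ m) ^ l)) ^ m = ((a : ℝ) ^ l) ^ (m * (2 * m)) *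
      (2 ^ (m + 1) * (150 ^ l) ^ (m + 1) * ((a : ℝ) * b) ^ l) ^ m := by
    simp only [mul_pow, ← pow_mul]
    have e4 : (a : ℝ) ^ (l * ((m + 1) * m)) * (a : ℝ) ^ (m * l * m) =
        (a : ℝ) ^ (l * (m * (2 * m))) * (a : ℝ) ^ (l * m) := by
      rw [← pow_add, ← pow_add]
      congr 1
      ring
    calc _ = ((a : ℝ) ^ (l * ((m + 1) * m)) * (a : ℝ) ^ (m * l * m)) *
          (2 ^ ((m + 1) * m) * 150 ^ (l * (m + 1) * m) * (b : ℝ) ^ (l * m)) := by ring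
      _ = _ := by rw [e4]; ring
  rw [e2, e3] at key
  exact le_of_mul_le_mul_left key hpos

omit [NumberField K] in
theorem place_natCast (w : InfinitePlace K) (g : ℕ) : w ((g : ℕ) : K) = g := by
  rw [← InfinitePlace.norm_embedding_eq w, map_natCast, Complex.norm_natCast]

/-- products of ideals `P p`, `J p` over a set of primes -/
theorem prod_facts {n : ℕ} {S : Finset ℕ} (P J : ℕ → (Ideal (𝓞 K))⁰)
    (h : ∀ p ∈ S, p.Prime ∧
      (P p : Ideal (𝓞 K)) * (J p : Ideal (𝓞 K)) = Ideal.span {((p : ℕ) : 𝓞 K)} ∧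
      Ideal.absNorm (P p : Ideal (𝓞 K)) = p ∧
      Ideal.absNorm (J p : Ideal (𝓞 K)) = p ^ (n - 1)) {T : Finset ℕ} (hT : T ⊆ S) :
    0 < ∏ p ∈ T, p ∧
    ((∏ p ∈ T, P p : (Ideal (𝓞 K))⁰) : Ideal (𝓞 K)) * ((∏ p ∈ T, J p : (Ideal (𝓞 K))⁰) :
      Ideal (𝓞 K)) = Ideal.span {((∏ p ∈ T, p : ℕ) : 𝓞 K)} ∧
    Ideal.absNorm ((∏ p ∈ T, P p : (Ideal (𝓞 K))⁰) : Ideal (𝓞 K)) = ∏ p ∈ T, p ∧
    Ideal.absNorm ((∏ p ∈ T, J p : (Ideal (𝓞 K))⁰) : Ideal (𝓞 K)) = (∏ p ∈ T, p) ^ (n - 1) := by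
  refine ⟨Finset.prod_pos fun p hp => (h p (hT hp)).1.pos, ?_, ?_, ?_⟩
  · rw [Submonoid.coe_finsetProd, Submonoid.coe_finsetProd, ← Finset.prod_mul_distrib,
      Finset.prod_congr rfl fun p hp => (h p (hT hp)).2.1, Ideal.prod_span_singleton]
    push_cast
    rfl
  · rw [Submonoid.coe_finsetProd, map_prod]
    exact Finset.prod_congr rfl fun p hp => (h p (hT hp)).2.2.1
  · rw [Submonoid.coe_finsetProd, map_prod, ← Finset.prod_pow]
    exact Finset.prod_congr rfl fun p hp => (h p (hT hp)).2.2.2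

theorem prod_le_pow {S : Finset ℕ} {z k : ℕ} (hz : ∀ p ∈ S, p ≤ z) (hS : S.card ≤ k)
    (hz1 : 1 ≤ z) : ∏ p ∈ S, p ≤ z ^ k := by
  calc ∏ p ∈ S, p ≤ ∏ _p ∈ S, z := Finset.prod_le_prod' fun p hp => hz p hp
    _ = z ^ S.card := by rw [Finset.prod_const]
    _ ≤ z ^ k := Nat.pow_le_pow_right hz1 hS

/-- torsion and products of `k` primes of degree one -/
theorem tor_sets (n : ℕ) (hn2 : 2 ≤ n) (ε : ℝ) (hε : 0 < ε) : ∃ C : ℝ, 0 < C ∧ ∀ l : ℕ, 1 ≤ l →
    ∀ (K : Type) [Field K] [NumberField K], Module.finrank ℚ K = n → ∀ S : Finset ℕ,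
    (∀ p ∈ S, p.Prime ∧ ¬ p ∣ (discr K).natAbs ∧ ∃ P : Ideal (𝓞 K), Ideal.absNorm P = p) →
    ∀ k z : ℕ, (∀ p ∈ S, p ≤ z) →
    (2 ^ n * ((150 : ℝ) ^ l) ^ n * (((z : ℝ) ^ k) ^ 2) ^ l) ^ (n - 1) < |(discr K : ℝ)| →
    (Nat.card {c : ClassGroup (𝓞 K) // c ^ l = 1} : ℝ) * (S.card.choose k : ℝ) ≤
      C * ((discr K).natAbs : ℝ) ^ (1 / 2 + ε) := by
  obtain ⟨C, hC0, hC⟩ := Pool.Agent.Y159.PT.W_bound n hn2 ε hε
  refine ⟨C, hC0, ?_⟩
  intro l hl K _ _ hn S hS k z hz hbig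
  obtain ⟨N, hXN, hW⟩ := hC K hn
  refine le_trans ?_ hW
  -- the case of no primes
  rcases Nat.lt_or_ge S.card k with hlt | hge
  · rw [Nat.choose_eq_zero_of_lt hlt, Nat.cast_zero, mul_zero]
    exact (Nat.cast_nonneg _).trans (tor_le_W hn l N hXN)
  have hex : ∀ p : ℕ, ∃ P J : (Ideal (𝓞 K))⁰, p ∈ S → (p.Prime ∧
      (P : Ideal (𝓞 K)) * (J : Ideal (𝓞 K)) = Ideal.span {((p : ℕ) : 𝓞 K)} ∧
      Ideal.absNorm (P : Ideal (𝓞 K)) = p ∧
      Ideal.absNorm (J : Ideal (𝓞 K)) = p ^ (n - 1)) := by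
    intro p
    by_cases hp : p ∈ S
    · obtain ⟨hpp, _, Q, hQ⟩ := hS p hp
      obtain ⟨P', J, _, h1, h2, h3⟩ := cofactorn hn hpp hQ
      exact ⟨P', J, fun _ => ⟨hpp, h1, h2, h3⟩⟩
    · exact ⟨1, 1, fun h => absurd h hp⟩
  choose P J hPJ using hex
  have hfacts := fun (T : Finset ℕ) (hT : T ⊆ S) => prod_facts (n := n) P J hPJ hT
  have hunr : ∀ p ∈ S, ¬ (P p : Ideal (𝓞 K)) ∣ (J p : Ideal (𝓞 K)) := by
    intro p hp hdvd
    exact (hS p hp).2.1 (dvd_discr_of_dvd (hPJ p hp).1 (hPJ p hp).2.2.1 (hPJ p hp).2.1 hdvd)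
  have key := ev_gen hn hl N hXN {T // T ∈ S.powersetCard k} (fun T => ∏ p ∈ T.1, p)
    (fun T => ∏ p ∈ T.1, P p) (fun T => ∏ p ∈ T.1, J p)
    (fun T => hfacts T.1 (Finset.mem_powersetCard.mp T.2).1) (by
      rintro ⟨T, hT⟩ ⟨T', hT'⟩ hne x hx0 hx hw
      simp only at hx hw
      rw [Finset.mem_powersetCard] at hT hT'
      have hne' : T ≠ T' := fun h => hne (Subtype.ext h)
      -- common part
      obtain ⟨q, hq⟩ : (T' \ T).Nonempty := by
        rw [Finset.sdiff_nonempty]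
        intro hsub
        exact hne' (Finset.eq_of_subset_of_card_le hsub (by rw [hT.2, hT'.2])).symm
      have hG : T ∩ T' ⊆ S := Finset.inter_subset_left.trans hT.1
      have h1 : T \ T' ⊆ S := Finset.sdiff_subset.trans hT.1
      have h2 : T' \ T ⊆ S := Finset.sdiff_subset.trans hT'.1
      obtain ⟨g0, hgs, -, -⟩ := hfacts _ hG
      obtain ⟨a0, has, haP, haJ⟩ := hfacts _ h1
      obtain ⟨b0, hbs, hbP, hbJ⟩ := hfacts _ h2
      set g := ∏ p ∈ T ∩ T', p with hg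
      set a := ∏ p ∈ T \ T', p with ha
      set b := ∏ p ∈ T' \ T, p with hb
      have ea : ∏ p ∈ T, p = g * a := by rw [hg, ha, Finset.prod_inter_mul_prod_sdiff]
      have eb : ∏ p ∈ T', p = g * b := by
        rw [hg, hb, Finset.inter_comm, Finset.prod_inter_mul_prod_sdiff]
      have eJ : ∏ p ∈ T, J p = (∏ p ∈ T ∩ T', J p) * ∏ p ∈ T \ T', J p := by
        rw [Finset.prod_inter_mul_prod_sdiff]
      have eP : ∏ p ∈ T', P p = (∏ p ∈ T ∩ T', P p) * ∏ p ∈ T' \ T, P p := by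
        rw [Finset.inter_comm, Finset.prod_inter_mul_prod_sdiff]
      set PG := ((∏ p ∈ T ∩ T', P p : (Ideal (𝓞 K))⁰) : Ideal (𝓞 K)) with hPG
      set JG := ((∏ p ∈ T ∩ T', J p : (Ideal (𝓞 K))⁰) : Ideal (𝓞 K)) with hJG
      set P1 := ((∏ p ∈ T \ T', P p : (Ideal (𝓞 K))⁰) : Ideal (𝓞 K)) with hP1
      set J1 := ((∏ p ∈ T \ T', J p : (Ideal (𝓞 K))⁰) : Ideal (𝓞 K)) with hJ1
      set P2 := ((∏ p ∈ T' \ T, P p : (Ideal (𝓞 K))⁰) : Ideal (𝓞 K)) with hP2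
      rw [eP, eJ, Submonoid.coe_mul, Submonoid.coe_mul, ← hPG, ← hJG, ← hJ1, ← hP2] at hx
      have hx2 : Ideal.span {x} = Ideal.span {((g : ℕ) : 𝓞 K) ^ l} * (P2 ^ l * J1 ^ l) := by
        rw [hx, ← Ideal.span_singleton_pow, ← hgs]
        ring
      have hdvd : ((g : ℕ) : 𝓞 K) ^ l ∣ x := by
        rw [← Ideal.span_singleton_le_span_singleton, hx2]
        exact Ideal.mul_le_left
      obtain ⟨y, hy⟩ := hdvd
      have hgl0 : ((g : ℕ) : 𝓞 K) ^ l ≠ 0 := pow_ne_zero _ (by exact_mod_cast g0.ne')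
      have hyspan : Ideal.span {y} = P2 ^ l * J1 ^ l := by
        rw [hy, ← Ideal.span_singleton_mul_span_singleton] at hx2
        have hne0 : Ideal.span {((g : ℕ) : 𝓞 K) ^ l} ≠ (0 : Ideal (𝓞 K)) := by
          rw [Ne, Ideal.zero_eq_bot, Ideal.span_singleton_eq_bot]
          exact hgl0
        exact mul_left_cancel₀ hne0 hx2
      have hy0 : y ≠ 0 := by
        rintro rfl
        exact hx0 (by rw [hy, mul_zero])
      -- the size of y
      have hgr : (0 : ℝ) < g := by exact_mod_cast g0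
      have hwy : ∀ w : InfinitePlace K, w (y : K) ^ n ≤ ((150 : ℝ) ^ l) ^ n *
          (((b * a ^ (n - 1)) ^ l : ℕ) : ℝ) := by
        intro w
        have e1 := hw w
        rw [ea, eb] at e1
        have e2 : w (x : K) = (g : ℝ) ^ l * w (y : K) := by
          rw [hy]
          push_cast
          rw [map_mul, map_pow, place_natCast]
        rw [e2, mul_pow] at e1
        have e3 : ((((g * b) * (g * a) ^ (n - 1)) ^ l : ℕ) : ℝ) =
            ((g : ℝ) ^ l) ^ n * (((b * a ^ (n - 1)) ^ l : ℕ) : ℝ) := by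
          obtain ⟨m, rfl⟩ : ∃ m, n = m + 1 := ⟨n - 1, by omega⟩
          simp only [Nat.add_sub_cancel]
          push_cast
          simp only [mul_pow, ← pow_mul]
          ring
        rw [e3] at e1
        have e4 : (0 : ℝ) < ((g : ℝ) ^ l) ^ n := by positivity
        have e5 : ((g : ℝ) ^ l) ^ n * w (y : K) ^ n ≤ ((g : ℝ) ^ l) ^ n *
            (((150 : ℝ) ^ l) ^ n * (((b * a ^ (n - 1)) ^ l : ℕ) : ℝ)) := by
          linarith
        exact le_of_mul_le_mul_left e5 e4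
      -- y generates the field
      have hqS : q ∈ S := h2 hq
      have hqP := (hPJ q hqS)
      have htop : ℚ⟮(y : K)⟯ = ⊤ := by
        have e1 : P2 = (P q : Ideal (𝓞 K)) *
            ((∏ p ∈ (T' \ T).erase q, P p : (Ideal (𝓞 K))⁰) : Ideal (𝓞 K)) := by
          rw [hP2, ← Finset.mul_prod_erase _ _ hq, Submonoid.coe_mul]
        refine gen_top_gen y (P q : Ideal (𝓞 K)) (J q : Ideal (𝓞 K))
          (((∏ p ∈ (T' \ T).erase q, P p : (Ideal (𝓞 K))⁰) : Ideal (𝓞 K)) ^ l * J1 ^ l)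
          hqP.1 hl hqP.2.2.1 hqP.2.1 (hunr q hqS) ?_ ?_
        · have h3 : (T' \ T).erase q ⊆ S := (Finset.erase_subset _ _).trans h2
          rw [map_mul, map_pow, map_pow, (hfacts _ h3).2.2.1, haJ]
          have hcop : ∀ U : Finset ℕ, U ⊆ S → q ∉ U → Nat.Coprime (∏ p ∈ U, p) q := by
            intro U hU hqU
            refine Nat.Coprime.prod_left fun p hp => ?_
            exact (Nat.coprime_primes (hPJ p (hU hp)).1 hqP.1).mpr
              (fun h => hqU (h ▸ hp))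
          refine Nat.Coprime.mul_left (Nat.Coprime.pow_left _ (hcop _ h3 (by simp)))
            (Nat.Coprime.pow_left _ (Nat.Coprime.pow_left _ (hcop _ h1 ?_)))
          intro hq1
          exact (Finset.mem_sdiff.mp hq).2 (Finset.mem_sdiff.mp hq1).1
        · rw [hyspan, e1, mul_pow, mul_assoc]
      have hD := disc_le_of_gen hn hn2 y htop P1 J1 P2 a0 has haJ hyspan hwy
      refine absurd (hD.trans ?_) (not_le.mpr hbig)
      have hz1 : 1 ≤ z := (hqP.1.one_lt.le).trans (hz q hqS)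
      have haz : a ≤ z ^ k := prod_le_pow (fun p hp => hz p (h1 hp))
        ((Finset.card_le_card Finset.sdiff_subset).trans hT.2.le) hz1
      have hbz : b ≤ z ^ k := prod_le_pow (fun p hp => hz p (h2 hp))
        ((Finset.card_le_card Finset.sdiff_subset).trans hT'.2.le) hz1
      have habz : ((a * b : ℕ) : ℝ) ≤ ((z : ℝ) ^ k) ^ 2 := by
        have : a * b ≤ (z ^ k) ^ 2 := by
          rw [sq]; exact Nat.mul_le_mul haz hbz
        exact_mod_cast this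
      gcongr)
  rw [Fintype.card_coe, Finset.card_powersetCard] at key
  rw [mul_comm]
  exact key

end Pool.Agent.V7H55.LT
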